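import Pool.Agent.T2H70.WI.Sweep

set_option autoImplicit false

open Complex Polynomial Metric Set Real MeasureTheory Filter Topology

namespace Pool.Agent.T2H70.WI

/-- Taylor polynomials approximate uniformly on smaller discs. -/
theorem poly_approx (F : ℂ → ℂ) (r R : ℝ) (hr : 0 < r) (hrR : r < R)
    (hF : DifferentiableOn ℂ F (ball 0 R)) (ε : ℝ) (hε : 0 < ε) :
    ∃ T : ℂ[X], ∀ z : ℂ, ‖z‖ ≤ r → ‖T.eval z - F z‖ ≤ ε := by
  obtain ⟨r1, h1, h2⟩ := exists_between hrR
  obtain ⟨r2, h3, h4⟩ := exists_between h1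
  have hr2 : 0 < r2 := hr.trans h3
  have hr1 : 0 < r1 := hr2.trans h4
  lift r1 to NNReal using hr1.le
  lift r2 to NNReal using hr2.le
  have hd : DifferentiableOn ℂ F (closedBall 0 r1) :=
    hF.mono (closedBall_subset_ball h2)
  have hps := hd.hasFPowerSeriesOnBall (by exact_mod_cast hr1)
  have hu := hps.tendstoUniformlyOn (r' := r2) (by exact_mod_cast h4)
  rw [Metric.tendstoUniformlyOn_iff] at hu
  obtain ⟨n, hn⟩ := (hu ε hε).exists
  refine ⟨∑ k ∈ Finset.range n, C ((cauchyPowerSeries F 0 r1).coeff k) * X ^ k, fun z hz => ?_⟩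
  have h5 := hn z (by simpa using hz.trans_lt h3)
  rw [dist_eq_norm, norm_sub_rev, zero_add] at h5
  refine le_trans (le_of_eq ?_) h5.le
  congr 2
  rw [eval_finsetSum]
  unfold FormalMultilinearSeries.partialSum
  apply Finset.sum_congr rfl
  intro k _
  rw [FormalMultilinearSeries.apply_eq_pow_smul_coeff]
  simp
  ring

/-- sub mean value property for analytic functions -/
theorem submean_analytic (F : ℂ → ℂ) (p r R : ℝ) (hp : 0 < p) (hr : 0 < r) (hrR : r < R)
    (hF : DifferentiableOn ℂ F (ball 0 R)) :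
    ‖F 0‖ ^ p ≤ Real.circleAverage (fun z => ‖F z‖ ^ p) 0 r := by
  have hex : ∀ k : ℕ, ∃ T : ℂ[X], ∀ z : ℂ, ‖z‖ ≤ r → ‖T.eval z - F z‖ ≤ 1 / ((k : ℝ) + 1) :=
    fun k => poly_approx F r R hr hrR hF _ (by positivity)
  choose T hT using hex
  have hlim : ∀ z : ℂ, ‖z‖ ≤ r → Tendsto (fun k => (T k).eval z) atTop (𝓝 (F z)) := by
    intro z hz
    rw [tendsto_iff_norm_sub_tendsto_zero]
    exact squeeze_zero (fun _ => norm_nonneg _) (fun k => hT k z hz)
      tendsto_one_div_add_atTop_nhds_zero_nat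
  have hcont : ContinuousOn F (closedBall 0 r) :=
    hF.continuousOn.mono (closedBall_subset_ball hrR)
  obtain ⟨M, hM⟩ := (isCompact_closedBall (0:ℂ) r).exists_bound_of_continuousOn hcont
  have hM0 : 0 ≤ M := (norm_nonneg _).trans (hM 0 (by simpa using hr.le))
  have h1 : Tendsto (fun k => Real.circleAverage (fun z => ‖(T k).eval z‖ ^ p) 0 r) atTop
      (𝓝 (Real.circleAverage (fun z => ‖F z‖ ^ p) 0 r)) := by
    unfold Real.circleAverage
    simp only [smul_eq_mul]
    apply Tendsto.const_mul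
    apply intervalIntegral.tendsto_integral_filter_of_dominated_convergence (fun _ => (M + 1) ^ p)
    · apply Eventually.of_forall
      intro k
      apply Continuous.aestronglyMeasurable
      exact ((((T k).continuous.comp (continuous_circleMap 0 r))).norm).rpow_const
        (fun _ => Or.inr hp.le)
    · apply Eventually.of_forall
      intro k
      apply Eventually.of_forall
      intro θ _
      have hz : ‖circleMap 0 r θ‖ ≤ r := by rw [norm_circleMap_zero, abs_of_pos hr]
      rw [Real.norm_eq_abs, abs_of_nonneg (by positivity)]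
      apply Real.rpow_le_rpow (norm_nonneg _) _ hp.le
      have e1 := hT k _ hz
      have e2 := hM (circleMap 0 r θ) (by simpa using hz)
      have e3 : 1 / ((k:ℝ) + 1) ≤ 1 := by
        rw [div_le_one (by positivity)]; linarith [(Nat.cast_nonneg k : (0:ℝ) ≤ k)]
      calc ‖(T k).eval (circleMap 0 r θ)‖
          = ‖((T k).eval (circleMap 0 r θ) - F (circleMap 0 r θ)) + F (circleMap 0 r θ)‖ := by
            rw [sub_add_cancel]
        _ ≤ _ := norm_add_le _ _
        _ ≤ M + 1 := by linarith
    · exact intervalIntegrable_const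
    · apply Eventually.of_forall
      intro θ _
      have hz : ‖circleMap 0 r θ‖ ≤ r := by rw [norm_circleMap_zero, abs_of_pos hr]
      exact ((hlim _ hz).norm).rpow_const (Or.inr hp.le)
  have h2 : Tendsto (fun k => ‖(T k).eval 0‖ ^ p) atTop (𝓝 (‖F 0‖ ^ p)) :=
    ((hlim 0 (by simpa using hr.le)).norm).rpow_const (Or.inr hp.le)
  exact le_of_tendsto_of_tendsto' h2 h1 (fun k => submean (T k) p hp hr)

end Pool.Agent.T2H70.WI
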