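import Pool.Agent.T2H70.WI.Non

set_option autoImplicit false

open Complex Polynomial Metric Set Real MeasureTheory Filter Topology

namespace Pool.Agent.T2H70.WI
namespace Sq

variable {h : ℝ} (d : Sq h)

lemma bracket_avg (j : ℕ) (c : ℝ) :
    Real.circleAverage (fun z : ℂ => c * (1 / 3 + 2 / 3 * ((z / rad j) ^ (d.N j)).re)) 0 (rad j)
      = c / 3 := by
  have hd : DiffContOnCl ℂ (fun z : ℂ => (c : ℂ) * (1 / 3 + 2 / 3 * (z / rad j) ^ (d.N j)))
      (ball 0 |rad j|) := by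
    apply Differentiable.diffContOnCl
    fun_prop
  have h1 := hd.circleAverage
  have hci : CircleIntegrable (fun z : ℂ => (c : ℂ) * (1 / 3 + 2 / 3 * (z / rad j) ^ (d.N j))) 0
      (rad j) := by
    apply ContinuousOn.circleIntegrable (rad_pos j).le
    apply Continuous.continuousOn
    fun_prop
  have h2 := Complex.reCLM.circleAverage_comp_comm hci
  rw [h1] at h2
  have h3 : Real.circleAverage (fun z : ℂ => c * (1 / 3 + 2 / 3 * ((z / rad j) ^ (d.N j)).re)) 0
      (rad j) = Real.circleAverage (Complex.reCLM ∘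
        (fun z : ℂ => (c : ℂ) * (1 / 3 + 2 / 3 * (z / rad j) ^ (d.N j)))) 0 (rad j) := by
    congr 1
    funext z
    have e1 : (2 / 3 : ℂ) = ((2 / 3 : ℝ) : ℂ) := by push_cast; rfl
    have e2 : (1 / 3 : ℂ) = ((1 / 3 : ℝ) : ℂ) := by push_cast; rfl
    simp only [Function.comp_apply, Complex.reCLM_apply, Complex.re_ofReal_mul, e1, e2,
      Complex.add_re, Complex.ofReal_re]
  have hN := (d.rel j).2.2.2.2.2.2
  rw [h3, h2]
  have e1 : (1 / 3 : ℂ) = ((1 / 3 : ℝ) : ℂ) := by push_cast; rfl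
  rw [zero_div, zero_pow (by omega), mul_zero, add_zero, Complex.reCLM_apply, e1,
    Complex.re_ofReal_mul, Complex.ofReal_re]
  ring

lemma avg_lower (θ : ℕ → ℝ) (h0 : ∀ i, 0 ≤ θ i) (h1 : ∀ i, θ i ≤ 1) (s : ℝ) (hs : 0 < s) (j : ℕ)
    (hj : θ j = 2 / 3) :
    Real.exp (s * (2 / 3 * (d.H j - 1) - d.K j - 1)) / 3
      ≤ Real.circleAverage (fun z => ‖d.g θ z‖ ^ s) 0 (rad j) := by
  rw [← d.bracket_avg j]
  apply Real.circleAverage_mono
  · apply circ_int
    apply Continuous.continuousOn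
    fun_prop
  · apply circ_int
    apply ContinuousOn.rpow_const _ (fun _ _ => Or.inr hs.le)
    apply ContinuousOn.norm
    exact (d.g_diff θ (fun i => abs_le.2 ⟨by linarith [h0 i], h1 i⟩)).continuousOn
  · intro z hz
    have hz' : ‖z‖ = rad j := by simpa [abs_of_pos (rad_pos j)] using hz
    have hw : ‖(z / rad j) ^ (d.N j)‖ = 1 := by
      rw [norm_pow, norm_div, hz', Complex.norm_real, Real.norm_eq_abs, abs_of_pos (rad_pos j),
        div_self (rad_pos j).ne', one_pow]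
    have hre := Complex.re_le_norm ((z / rad j) ^ (d.N j))
    rw [hw] at hre
    have hq0 : (0 : ℝ) ≤ ‖d.g θ z‖ ^ s := by positivity
    have hE := Real.exp_pos (s * (2 / 3 * (d.H j - 1) - d.K j - 1))
    by_cases hb : -(1 / 2) ≤ ((z / rad j) ^ (d.N j)).re
    · have e1 := d.L_lower θ h0 h1 1
        (by intro i k; rw [abs_le]; constructor <;> linarith [h0 i, h0 k, h1 i, h1 k]) j z hz' hb
      rw [hj] at e1
      have e2 : Real.exp (s * (2 / 3 * (d.H j - 1) - d.K j - 1)) ≤ ‖d.g θ z‖ ^ s := by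
        rw [norm_g, ← Real.exp_mul]
        apply Real.exp_le_exp.2
        rw [mul_comm]
        apply mul_le_mul_of_nonneg_right _ hs.le
        linarith
      nlinarith
    · push Not at hb
      nlinarith

/-- blow up of the weighted mean along the indices where the exponent is 2/3 -/
theorem blow_up (θ : ℕ → ℝ) (h0 : ∀ i, 0 ≤ θ i) (h1 : ∀ i, θ i ≤ 1) (p s : ℝ) (hp : 0 < p)
    (hs : 3 / 2 * p < s) (hθ : ∀ n, ∃ j, n ≤ j ∧ θ j = 2 / 3) (M : ℝ) :
    ∃ j, M < d.mass p j * Real.circleAverage (fun z => ‖d.g θ z‖ ^ s) 0 (rad j) := by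
  have hs0 : 0 < s := by linarith
  set δ := 2 / 3 * s - p with hδ
  have hδ0 : 0 < δ := by rw [hδ]; linarith
  obtain ⟨n, hn⟩ := exists_nat_gt (max ((2 * s + 2) / δ) (3 * M))
  have hn1 := (le_max_left _ _).trans_lt hn
  have hn2 := (le_max_right _ _).trans_lt hn
  obtain ⟨j, hnj, hj⟩ := hθ n
  refine ⟨j, ?_⟩
  have hnj' : (n : ℝ) ≤ j := by exact_mod_cast hnj
  have e1 := d.avg_lower θ h0 h1 s hs0 j hj
  have hK := d.K_nonneg j
  have hH := (d.H_ge j).2.2
  have hmp := d.mass_pos p j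
  rw [div_lt_iff₀ hδ0] at hn1
  have hj0 : (0 : ℝ) ≤ j := Nat.cast_nonneg j
  have e2 : (2 * s + 2) * (d.K j + j + 1) ≤ δ * d.H j := by
    have : (2 * s + 2) ≤ δ * (j + 1) := by nlinarith
    calc (2 * s + 2) * (d.K j + j + 1) ≤ (δ * (j + 1)) * (d.K j + j + 1) := by
          apply mul_le_mul_of_nonneg_right this (by positivity)
      _ = δ * ((j + 1) * (d.K j + j + 1)) := by ring
      _ ≤ δ * d.H j := mul_le_mul_of_nonneg_left hH hδ0.le
  have e3 : (j : ℝ) + 1 ≤ s * (2 / 3 * (d.H j - 1) - d.K j - 1) - p * d.H j - j := by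
    have : s * (2 / 3 * (d.H j - 1) - d.K j - 1) - p * d.H j
        = δ * d.H j - s * (d.K j + 5 / 3) := by rw [hδ]; ring
    rw [this]
    have a1 : 0 ≤ s * d.K j := by positivity
    have a2 : 0 ≤ s * j := by positivity
    nlinarith
  have e4 : Real.exp (-(j : ℝ)) ≤ (4 / 5) ^ j := by
    have : Real.exp (-(j : ℝ)) = (Real.exp (-1)) ^ j := by
      rw [← Real.exp_nat_mul]; ring_nf
    rw [this]
    apply pow_le_pow_left₀ (Real.exp_pos _).le
    have h2 : Real.exp (-1) = (Real.exp 1)⁻¹ := Real.exp_neg 1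
    rw [h2]
    have h3 : (2 : ℝ) ≤ Real.exp 1 := by
      have := Real.add_one_le_exp (1 : ℝ); linarith
    calc (Real.exp 1)⁻¹ ≤ 2⁻¹ := inv_anti₀ (by norm_num) h3
      _ ≤ 4 / 5 := by norm_num
  have e5 : (j : ℝ) + 1 ≤ d.mass p j * Real.exp (s * (2 / 3 * (d.H j - 1) - d.K j - 1)) := by
    have b1 := Real.add_one_le_exp (s * (2 / 3 * (d.H j - 1) - d.K j - 1) - p * d.H j - j)
    have b2 : Real.exp (s * (2 / 3 * (d.H j - 1) - d.K j - 1) - p * d.H j - j)
        = Real.exp (-(j : ℝ)) * Real.exp (-(p * d.H j))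
          * Real.exp (s * (2 / 3 * (d.H j - 1) - d.K j - 1)) := by
      rw [← Real.exp_add, ← Real.exp_add]; ring_nf
    have b3 : Real.exp (-(j : ℝ)) * Real.exp (-(p * d.H j))
          * Real.exp (s * (2 / 3 * (d.H j - 1) - d.K j - 1)) ≤
          d.mass p j * Real.exp (s * (2 / 3 * (d.H j - 1) - d.K j - 1)) := by
      unfold mass
      gcongr
    linarith
  have e6 : ((j : ℝ) + 1) / 3 ≤ d.mass p j *
      Real.circleAverage (fun z => ‖d.g θ z‖ ^ s) 0 (rad j) := by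
    calc ((j : ℝ) + 1) / 3 ≤ (d.mass p j * Real.exp (s * (2 / 3 * (d.H j - 1) - d.K j - 1))) / 3 := by
          linarith
      _ = d.mass p j * (Real.exp (s * (2 / 3 * (d.H j - 1) - d.K j - 1)) / 3) := by ring
      _ ≤ _ := mul_le_mul_of_nonneg_left e1 hmp.le
  linarith

end Sq
end Pool.Agent.T2H70.WI
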