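import Pool.Agent.T2H70.WI.Majorant

set_option autoImplicit false

open Complex Polynomial Metric Set Real MeasureTheory

namespace Pool.Agent.T2H70.WI

lemma poissonKernel_symm {r R : ℝ} (hr : 0 < r) (hrR : r < R) {w z : ℂ} (hw : ‖w‖ = r)
    (hz : ‖z‖ = R) :
    poissonKernel 0 w z = poissonKernel 0 (((r ^ 2 / R ^ 2 : ℝ) : ℂ) * z) w := by
  have hR : 0 < R := hr.trans hrR
  unfold poissonKernel
  simp only [sub_zero]
  have h1 : ‖w - ((r ^ 2 / R ^ 2 : ℝ) : ℂ) * z‖ ^ 2 = (r ^ 2 / R ^ 2) * ‖z - w‖ ^ 2 := by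
    have hw2 : w.re * w.re + w.im * w.im = r ^ 2 := by
      rw [← Complex.normSq_apply, Complex.normSq_eq_norm_sq, hw]
    have hz2 : z.re * z.re + z.im * z.im = R ^ 2 := by
      rw [← Complex.normSq_apply, Complex.normSq_eq_norm_sq, hz]
    rw [← Complex.normSq_eq_norm_sq, ← Complex.normSq_eq_norm_sq, Complex.normSq_apply,
      Complex.normSq_apply]
    simp only [Complex.sub_re, Complex.sub_im, Complex.re_ofReal_mul, Complex.im_ofReal_mul]
    have hR2 : R ^ 2 ≠ 0 := by positivity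
    set t := r ^ 2 / R ^ 2 with ht
    have htR : t * R ^ 2 = r ^ 2 := by rw [ht]; field_simp
    linear_combination (1 - t) * hw2 + (t ^ 2 - t) * hz2 + (t - 1) * htR
  rw [h1, norm_mul, Complex.norm_real, Real.norm_eq_abs, abs_of_pos (by positivity), hw, hz]
  have hne : ‖z - w‖ ^ 2 ≠ 0 := by
    have : 0 < ‖z - w‖ := by
      have := norm_sub_norm_le z w
      rw [hz, hw] at this
      linarith
    positivity
  field_simp

lemma poisson_norm {F : ℂ → ℂ} {R : ℝ} (hR : 0 < R) (hF : DiffContOnCl ℂ F (ball 0 R)) {w : ℂ}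
    (hw : ‖w‖ < R) :
    ‖F w‖ ≤ Real.circleAverage (fun z => poissonKernel 0 w z * ‖F z‖) 0 R := by
  have h1 := hF.circleAverage_poissonKernel_smul (w := w) (by simpa using hw)
  rw [← h1]
  unfold Real.circleAverage
  rw [norm_smul, Real.norm_eq_abs, abs_of_pos (by positivity), smul_eq_mul]
  apply mul_le_mul_of_nonneg_left _ (by positivity)
  refine (intervalIntegral.norm_integral_le_integral_norm (by positivity)).trans (le_of_eq ?_)
  congr 1
  funext θ
  simp only [Pi.smul_apply', norm_smul, Real.norm_eq_abs]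
  congr 1
  rw [abs_of_nonneg]
  unfold poissonKernel
  simp only [sub_zero]
  apply div_nonneg _ (by positivity)
  rw [norm_circleMap_zero, abs_of_pos hR]
  nlinarith [norm_nonneg w]

lemma inner_average {r R : ℝ} (hr : 0 < r) (hrR : r < R) (N : ℕ) {z : ℂ} (hz : ‖z‖ = R) :
    Real.circleAverage (fun w => (1 - ((w / r) ^ N).re) * poissonKernel 0 w z) 0 r
      ≤ 1 + (r / R) ^ N := by
  have hR : 0 < R := hr.trans hrR
  set z' : ℂ := ((r ^ 2 / R ^ 2 : ℝ) : ℂ) * z with hz'
  have hz'n : ‖z'‖ = r ^ 2 / R := by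
    rw [hz', norm_mul, Complex.norm_real, Real.norm_eq_abs, abs_of_pos (by positivity), hz]
    field_simp
  have hz'r : ‖z'‖ < r := by
    rw [hz'n, div_lt_iff₀ hR]; nlinarith
  have hd : DiffContOnCl ℂ (fun w : ℂ => 1 - (w / r) ^ N) (ball 0 r) := by
    apply Differentiable.diffContOnCl
    fun_prop
  have h1 := hd.circleAverage_poissonKernel_smul (w := z') (by simpa using hz'r)
  have hci : CircleIntegrable (poissonKernel 0 z' • (fun w : ℂ => 1 - (w / r) ^ N)) 0 r := by
    apply ContinuousOn.circleIntegrable hr.le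
    intro x hx
    have hx' : ‖x‖ = r := by simpa using hx
    apply ContinuousAt.continuousWithinAt
    have hne : ‖x - 0 - (z' - 0)‖ ^ 2 ≠ 0 := by
      have : 0 < ‖x - z'‖ := by
        have := norm_sub_norm_le x z'
        rw [hx'] at this
        linarith
      simp only [sub_zero]
      positivity
    have hc : ContinuousAt (poissonKernel 0 z') x := by
      unfold poissonKernel
      refine ContinuousAt.div ?_ ?_ hne
      · fun_prop
      · fun_prop
    exact hc.smul (by fun_prop)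
  have h2 := Complex.reCLM.circleAverage_comp_comm hci
  rw [h1] at h2
  have h3 : Real.circleAverage (fun w => (1 - ((w / r) ^ N).re) * poissonKernel 0 w z) 0 r
      = Real.circleAverage (Complex.reCLM ∘ (poissonKernel 0 z' • (fun w : ℂ => 1 - (w / r) ^ N))) 0 r := by
    apply Real.circleAverage_congr_sphere
    intro w hw
    have hw' : ‖w‖ = r := by simpa [abs_of_pos hr] using hw
    simp only [Function.comp_apply, Pi.smul_apply', Complex.reCLM_apply, Complex.real_smul,
      Complex.re_ofReal_mul, Complex.sub_re, Complex.one_re]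
    rw [poissonKernel_symm hr hrR hw' hz]
    ring
  rw [h3, h2, Complex.reCLM_apply, Complex.sub_re, Complex.one_re]
  have h4 : ‖(z' / r) ^ N‖ = (r / R) ^ N := by
    rw [norm_pow, norm_div, hz'n, Complex.norm_real, Real.norm_eq_abs, abs_of_pos hr]
    congr 1
    field_simp
  have h5 := (abs_le.1 (Complex.abs_re_le_norm ((z' / r) ^ N))).1
  rw [h4] at h5
  linarith

lemma sweep_aux (b u v : ℝ → ℝ) (P : ℝ → ℝ → ℝ) (c : ℝ) (hb : Continuous b)
    (hP : Continuous (Function.uncurry P)) (hu : Continuous u) (hv : Continuous v)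
    (hb0 : ∀ θ, 0 ≤ b θ) (hu0 : ∀ θ, 0 ≤ u θ)
    (h1 : ∀ θ, v θ ≤ (2 * π)⁻¹ * ∫ φ in (0:ℝ)..2 * π, P θ φ * u φ)
    (h2 : ∀ φ, (2 * π)⁻¹ * (∫ θ in (0:ℝ)..2 * π, b θ * P θ φ) ≤ c) :
    (2 * π)⁻¹ * (∫ θ in (0:ℝ)..2 * π, b θ * v θ) ≤ c * ((2 * π)⁻¹ * ∫ φ in (0:ℝ)..2 * π, u φ) := by
  have hP' : Continuous (fun x : ℝ × ℝ => P x.1 x.2) := hP
  have hPc : ∀ (f g : ℝ → ℝ), Continuous f → Continuous g → Continuous (fun x => P (f x) (g x)) :=
    fun f g hf hg => hP'.comp (hf.prodMk hg)
  have hK1 : Continuous (Function.uncurry (fun θ φ => b θ * (P θ φ * u φ))) := by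
    have : Continuous (fun x : ℝ × ℝ => b x.1 * (P x.1 x.2 * u x.2)) :=
      (hb.comp continuous_fst).mul (hP'.mul (hu.comp continuous_snd))
    exact this
  have hK2 : Continuous (Function.uncurry (fun φ θ => b θ * (P θ φ * u φ))) := by
    have : Continuous (fun x : ℝ × ℝ => b x.2 * (P x.2 x.1 * u x.1)) :=
      (hb.comp continuous_snd).mul ((hP'.comp (continuous_snd.prodMk continuous_fst)).mul
        (hu.comp continuous_fst))
    exact this
  have c1 := intervalIntegral.continuous_parametric_intervalIntegral_of_continuous'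
    (μ := volume) hK1 0 (2 * π)
  have c2 := intervalIntegral.continuous_parametric_intervalIntegral_of_continuous'
    (μ := volume) hK2 0 (2 * π)
  have hpi : (0:ℝ) ≤ (2 * π)⁻¹ := by positivity
  have s1 : (∫ θ in (0:ℝ)..2 * π, b θ * v θ)
      ≤ ∫ θ in (0:ℝ)..2 * π, (2 * π)⁻¹ * ∫ φ in (0:ℝ)..2 * π, b θ * (P θ φ * u φ) := by
    apply intervalIntegral.integral_mono_on (by positivity)
    · exact (hb.mul hv).intervalIntegrable _ _
    · exact (c1.const_mul _).intervalIntegrable _ _
    · intro θ _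
      rw [intervalIntegral.integral_const_mul]
      calc b θ * v θ ≤ b θ * ((2 * π)⁻¹ * ∫ φ in (0:ℝ)..2 * π, P θ φ * u φ) :=
            mul_le_mul_of_nonneg_left (h1 θ) (hb0 θ)
        _ = _ := by ring
  have s2 : (∫ θ in (0:ℝ)..2 * π, (2 * π)⁻¹ * ∫ φ in (0:ℝ)..2 * π, b θ * (P θ φ * u φ))
      = ∫ φ in (0:ℝ)..2 * π, (2 * π)⁻¹ * ∫ θ in (0:ℝ)..2 * π, b θ * (P θ φ * u φ) := by
    rw [intervalIntegral.integral_const_mul, intervalIntegral.integral_const_mul]
    rw [MeasureTheory.intervalIntegral_intervalIntegral_swap]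
    have : IntegrableOn (Function.uncurry (fun θ φ => b θ * (P θ φ * u φ)))
      (Set.Icc 0 (2 * π) ×ˢ Set.Icc 0 (2 * π)) :=
      ContinuousOn.integrableOn_compact (isCompact_Icc.prod isCompact_Icc) hK1.continuousOn
    apply this.mono_set
    rw [Set.uIoc_of_le (by positivity)]
    exact Set.prod_mono Set.Ioc_subset_Icc_self Set.Ioc_subset_Icc_self
  have s3 : (∫ φ in (0:ℝ)..2 * π, (2 * π)⁻¹ * ∫ θ in (0:ℝ)..2 * π, b θ * (P θ φ * u φ))
      ≤ ∫ φ in (0:ℝ)..2 * π, c * u φ := by
    apply intervalIntegral.integral_mono_on (by positivity)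
    · exact (c2.const_mul _).intervalIntegrable _ _
    · exact (hu.const_mul c).intervalIntegrable _ _
    · intro φ _
      have e : (∫ θ in (0:ℝ)..2 * π, b θ * (P θ φ * u φ))
          = (∫ θ in (0:ℝ)..2 * π, b θ * P θ φ) * u φ := by
        rw [← intervalIntegral.integral_mul_const]
        congr 1
        funext θ
        ring
      rw [e, ← mul_assoc]
      exact mul_le_mul_of_nonneg_right (h2 φ) (hu0 φ)
  calc (2 * π)⁻¹ * (∫ θ in (0:ℝ)..2 * π, b θ * v θ)
      ≤ (2 * π)⁻¹ * ∫ φ in (0:ℝ)..2 * π, c * u φ :=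
        mul_le_mul_of_nonneg_left (s1.trans (s2.le.trans s3)) hpi
    _ = c * ((2 * π)⁻¹ * ∫ φ in (0:ℝ)..2 * π, u φ) := by
        rw [intervalIntegral.integral_const_mul]; ring

/-- the sweeping inequality -/
theorem sweep (q : ℂ[X]) (p : ℝ) (hp : 0 < p) {r R : ℝ} (hr : 0 < r) (hrR : r < R) (N : ℕ) :
    Real.circleAverage (fun w => (1 - ((w / r) ^ N).re) * ‖q.eval w‖ ^ p) 0 r
      ≤ (1 + (r / R) ^ N) * Real.circleAverage (fun z => ‖q.eval z‖ ^ p) 0 R := by
  have hR : 0 < R := hr.trans hrR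
  obtain ⟨F, hF, hF1, hF2⟩ := exists_majorant p R hp hR q
  have hu : Continuous (fun z : ℂ => ‖q.eval z‖ ^ p) :=
    (q.continuous.norm).rpow_const (fun _ => Or.inr hp.le)
  have hβ : ∀ w : ℂ, ‖w‖ = r → 0 ≤ 1 - ((w / r) ^ N).re := by
    intro w hw
    have h1 : ‖(w / r) ^ N‖ = 1 := by
      rw [norm_pow, norm_div, hw, Complex.norm_real, Real.norm_eq_abs, abs_of_pos hr,
        div_self hr.ne', one_pow]
    have h2 := (abs_le.1 (Complex.abs_re_le_norm ((w / r) ^ N))).2
    linarith
  have hPc : Continuous (Function.uncurry fun θ φ : ℝ =>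
      poissonKernel 0 (circleMap 0 r θ) (circleMap 0 R φ)) := by
    have hne : ∀ x : ℝ × ℝ, ‖circleMap 0 R x.2 - 0 - (circleMap 0 r x.1 - 0)‖ ^ 2 ≠ 0 := by
      intro x
      have : 0 < ‖circleMap 0 R x.2 - circleMap 0 r x.1‖ := by
        have := norm_sub_norm_le (circleMap 0 R x.2) (circleMap 0 r x.1)
        rw [norm_circleMap_zero, norm_circleMap_zero, abs_of_pos hR, abs_of_pos hr] at this
        linarith
      simp only [sub_zero]
      positivity
    show Continuous (fun x : ℝ × ℝ => poissonKernel 0 (circleMap 0 r x.1) (circleMap 0 R x.2))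
    unfold poissonKernel
    refine Continuous.div ?_ ?_ hne
    · fun_prop
    · fun_prop
  have key := sweep_aux (fun θ => 1 - ((circleMap 0 r θ / r) ^ N).re)
    (fun φ => ‖q.eval (circleMap 0 R φ)‖ ^ p) (fun θ => ‖q.eval (circleMap 0 r θ)‖ ^ p)
    (fun θ φ : ℝ => poissonKernel 0 (circleMap 0 r θ) (circleMap 0 R φ)) (1 + (r / R) ^ N)
    (by fun_prop) hPc (hu.comp (continuous_circleMap 0 R)) (hu.comp (continuous_circleMap 0 r))
    (fun θ => hβ _ (by rw [norm_circleMap_zero, abs_of_pos hr])) (fun θ => by positivity)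
    ?_ ?_
  · simpa only [Real.circleAverage, smul_eq_mul] using key
  · intro θ
    have hw : ‖circleMap 0 r θ‖ = r := by rw [norm_circleMap_zero, abs_of_pos hr]
    calc ‖q.eval (circleMap 0 r θ)‖ ^ p ≤ ‖F (circleMap 0 r θ)‖ := hF2 _ (by rw [hw]; exact hrR.le)
        _ ≤ Real.circleAverage (fun z => poissonKernel 0 (circleMap 0 r θ) z * ‖F z‖) 0 R :=
            poisson_norm hR hF (by rw [hw]; exact hrR)
        _ = Real.circleAverage (fun z => poissonKernel 0 (circleMap 0 r θ) z * ‖q.eval z‖ ^ p) 0 R := by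
            apply Real.circleAverage_congr_sphere
            intro z hz
            have hz' : ‖z‖ = R := by simpa [abs_of_pos hR] using hz
            simp only [hF1 z hz']
        _ = _ := by simp only [Real.circleAverage, smul_eq_mul]
  · intro φ
    have hz : ‖circleMap 0 R φ‖ = R := by rw [norm_circleMap_zero, abs_of_pos hR]
    have := inner_average hr hrR N hz
    simpa only [Real.circleAverage, smul_eq_mul] using this

/-- sub mean value property -/
theorem submean (q : ℂ[X]) (p : ℝ) (hp : 0 < p) {R : ℝ} (hR : 0 < R) :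
    ‖q.eval 0‖ ^ p ≤ Real.circleAverage (fun z => ‖q.eval z‖ ^ p) 0 R := by
  obtain ⟨F, hF, hF1, hF2⟩ := exists_majorant p R hp hR q
  have h1 := poisson_norm hR hF (w := 0) (by simpa using hR)
  refine (hF2 0 (by simpa using hR.le)).trans (h1.trans (le_of_eq ?_))
  apply Real.circleAverage_congr_sphere
  intro z hz
  have hz' : ‖z‖ = R := by simpa [abs_of_pos hR] using hz
  have : poissonKernel 0 0 z = 1 := by
    unfold poissonKernel
    simp only [sub_zero, norm_zero, hz']
    field_simp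
    ring
  simp only [this, one_mul, hF1 z hz']

end Pool.Agent.T2H70.WI
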