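import Pool.Agent.T2H70.WI.OneStep2
import Pool.Agent.T2H70.WI.Sweep

set_option autoImplicit false

open Complex Polynomial Metric Set Real

namespace Pool.Agent.T2H70.WI

/-- the radii -/
noncomputable def rad (j : ℕ) : ℝ := (j + 1) / (j + 2)

/-- the previous radius -/
noncomputable def prad (j : ℕ) : ℝ := j / (j + 1)

lemma prad_succ (j : ℕ) : prad (j + 1) = rad j := by
  unfold prad rad; push_cast; ring_nf

lemma rad_pos (j : ℕ) : 0 < rad j := by unfold rad; positivity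

lemma rad_lt_one (j : ℕ) : rad j < 1 := by
  unfold rad; rw [div_lt_one (by positivity)]; linarith

lemma prad_nonneg (j : ℕ) : 0 ≤ prad j := by unfold prad; positivity

lemma prad_lt_rad (j : ℕ) : prad j < rad j := by
  unfold prad rad
  rw [div_lt_div_iff₀ (by positivity) (by positivity)]
  nlinarith

lemma rad_lt_succ (j : ℕ) : rad j < rad (j + 1) := by
  rw [← prad_succ]; exact prad_lt_rad _

/-- the heights -/
noncomputable def ht (h : ℝ) (K : ℝ) (j : ℕ) : ℝ := (j + h) * (K + j + 1)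

def Good (s : ℂ[X] × ℝ) : Prop := 0 ≤ s.2 ∧ ∀ z : ℂ, ‖z‖ ≤ 1 → ‖s.1.eval z‖ ≤ s.2

def Rel (h : ℝ) (j : ℕ) (s t : ℂ[X] × ℝ) (N : ℕ) : Prop :=
  (t.1 - s.1).eval 0 = 0 ∧
  (∀ z : ℂ, ‖z‖ ≤ prad j → ‖(t.1 - s.1).eval z‖ ≤ (1 / 2) ^ (j + 2)) ∧
  (∀ z : ℂ, ‖z‖ ≤ 1 → ‖(t.1 - s.1).eval z‖ ≤ t.2 - s.2) ∧
  (∀ z : ℂ, ‖z‖ = rad j → (t.1.eval z).re ≤ ht h s.2 j) ∧
  (∀ z : ℂ, ‖z‖ = rad j → -(1 / 2) ≤ ((z / rad j) ^ N).re → ht h s.2 j - 1 ≤ (t.1.eval z).re) ∧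
  (rad j / rad (j + 1)) ^ N ≤ 1 / 8 ∧ 1 ≤ N

lemma poly_bound (Q : ℂ[X]) : ∃ B : ℝ, 0 ≤ B ∧ ∀ z : ℂ, ‖z‖ ≤ 1 → ‖Q.eval z‖ ≤ B := by
  refine ⟨∑ k ∈ Finset.range (Q.natDegree + 1), ‖Q.coeff k‖,
    Finset.sum_nonneg fun _ _ => norm_nonneg _, fun z hz => ?_⟩
  rw [eval_eq_sum_range]
  refine (norm_sum_le _ _).trans (Finset.sum_le_sum fun k _ => ?_)
  rw [norm_mul, norm_pow]
  have : ‖z‖ ^ k ≤ 1 := pow_le_one₀ (norm_nonneg _) hz
  nlinarith [norm_nonneg (Q.coeff k)]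

lemma step_exists (h : ℝ) (hh : 6 ≤ h) (j : ℕ) (s : ℂ[X] × ℝ) (hs : Good s) :
    ∃ t : ℂ[X] × ℝ, Good t ∧ ∃ N : ℕ, Rel h j s t N := by
  obtain ⟨hK, hS⟩ := hs
  set H := ht h s.2 j with hH
  have hj : (0 : ℝ) ≤ j := Nat.cast_nonneg j
  have hH1 : 1 ≤ H := by rw [hH]; unfold ht; nlinarith
  have hHK : s.2 ≤ H := by rw [hH]; unfold ht; nlinarith
  set n : ℕ := ⌈8 * H⌉₊ with hn
  have hn0 : 0 < n := by rw [hn, Nat.ceil_pos]; linarith
  have hn1 : 8 * H ≤ n := Nat.le_ceil _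
  obtain ⟨N0, hN0⟩ := onestep s.1 n hn0 (prad j) (rad j) H ((1 / 2) ^ (j + 2)) (prad_nonneg j)
    (prad_lt_rad j) (by positivity)
  have hq0 : 0 ≤ rad j / rad (j + 1) := div_nonneg (rad_pos _).le (rad_pos _).le
  have hq1 : rad j / rad (j + 1) < 1 := by rw [div_lt_one (rad_pos _)]; exact rad_lt_succ j
  obtain ⟨N1, hN1⟩ := ((tendsto_pow_atTop_nhds_zero_of_lt_one hq0 hq1).eventually
    (ge_mem_nhds (show (0:ℝ) < 1 / 8 by norm_num))).exists_forall_of_atTop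
  set N := max N0 (max N1 1) with hN
  obtain ⟨Q, hQ0, hQ1, hQ2⟩ := hN0 N (le_max_left _ _)
  obtain ⟨B, hB0, hB⟩ := poly_bound Q
  have hts : s.1 + Q - s.1 = Q := by ring
  have hχ : ∀ z : ℂ, ‖z‖ = rad j → ‖(z / rad j) ^ N‖ = 1 := by
    intro z hz
    rw [norm_pow, norm_div, hz, Complex.norm_real, Real.norm_eq_abs, abs_of_pos (rad_pos j),
      div_self (rad_pos j).ne', one_pow]
  have hre : ∀ z : ℂ, ‖z‖ = rad j → |(s.1.eval z).re| ≤ s.2 := fun z hz =>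
    (Complex.abs_re_le_norm _).trans (hS z (hz ▸ (rad_lt_one j).le))
  refine ⟨(s.1 + Q, s.2 + B), ⟨by simp only; linarith, fun z hz => ?_⟩, N, ?_, ?_, ?_, ?_, ?_, ?_, ?_⟩
  · simp only [eval_add]
    exact (norm_add_le _ _).trans (add_le_add (hS z hz) (hB z hz))
  · simp only [hts]; exact hQ0
  · simp only [hts]; exact hQ1
  · simp only [hts]; intro z hz
    have := hB z hz
    linarith
  · intro z hz
    simp only [eval_add, Complex.add_re]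
    rw [hQ2 z hz]
    have h1 := abs_le.1 (hre z hz)
    have h2 := chi_le_one n ((z / rad j) ^ N)
    nlinarith [h1.2]
  · intro z hz hz2
    simp only [eval_add, Complex.add_re]
    rw [hQ2 z hz]
    have h1 := abs_le.1 (hre z hz)
    have h2 := chi_ge n ((z / rad j) ^ N) (hχ z hz) hz2
    have h3 := chi_le_one n ((z / rad j) ^ N)
    have h4 : 4 / (n:ℝ) * (2 * H) ≤ 1 := by
      have : (0:ℝ) < n := by exact_mod_cast hn0
      rw [div_mul_eq_mul_div, div_le_one this]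
      linarith
    have h5 : 0 ≤ H - (s.1.eval z).re := by linarith [h1.2]
    have h6 : H - (s.1.eval z).re ≤ 2 * H := by linarith [h1.1]
    have h7 : (0:ℝ) ≤ 4 / (n:ℝ) := by positivity
    -- re S + (H - re S) χ = H - (H - re S)(1 - χ)
    have h8 : (H - (s.1.eval z).re) * (1 - chi n ((z / rad j) ^ N)) ≤ 2 * H * (4 / n) := by
      apply mul_le_mul h6 (by linarith) (by linarith) (by linarith)
    nlinarith
  · exact hN1 N ((le_max_left _ _).trans (le_max_right _ _))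
  · exact (le_max_right _ _).trans (le_max_right _ _)

theorem exists_seq (h : ℝ) (hh : 6 ≤ h) :
    ∃ (st : ℕ → ℂ[X] × ℝ) (N : ℕ → ℕ), st 0 = (0, 0) ∧ (∀ j, Good (st j)) ∧
      ∀ j, Rel h j (st j) (st (j + 1)) (N j) := by
  have hstep : ∀ (j : ℕ) (s : {s : ℂ[X] × ℝ // Good s}),
      ∃ t : {s : ℂ[X] × ℝ // Good s}, ∃ N : ℕ, Rel h j s.1 t.1 N := by
    intro j s
    obtain ⟨t, ht, N, hN⟩ := step_exists h hh j s.1 s.2
    exact ⟨⟨t, ht⟩, N, hN⟩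
  choose F G hFG using hstep
  let sq : ℕ → {s : ℂ[X] × ℝ // Good s} := fun n =>
    Nat.rec ⟨(0, 0), ⟨le_refl _, fun z _ => by simp⟩⟩ (fun j s => F j s) n
  exact ⟨fun j => (sq j).1, fun j => G j (sq j), rfl, fun j => (sq j).2, fun j => hFG j (sq j)⟩

end Pool.Agent.T2H70.WI
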