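import Mathlib

set_option autoImplicit false

open Complex Polynomial Metric Set Real MeasureTheory Filter Topology
open scoped ENNReal

namespace Pool.Agent.T2H70.WI

/-- The radial part `ν` of a symmetric measure: a finite Borel measure on `[0,1]` without mass at
`0` and with `ν [τ,1] > 0` for every `0 ≤ τ < 1`. -/
structure IsRadialPart (ν : Measure ℝ) : Prop where
  finite : ν univ < ⊤
  support : ν (Icc (0 : ℝ) 1)ᶜ = 0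
  zero : ν {0} = 0
  pos : ∀ τ : ℝ, 0 ≤ τ → τ < 1 → 0 < ν (Icc τ 1)

/-- The symmetric measure `dμ(τ e^{iθ}) = (2π)⁻¹ dν(τ) dθ`, that is the image of
`ν × (2π)⁻¹ dθ` on `ℝ × (0,2π]` under `(τ, θ) ↦ τ e^{iθ}`. -/
noncomputable def symmMeasure (ν : Measure ℝ) : Measure ℂ :=
  Measure.map (fun x : ℝ × ℝ => (x.1 : ℂ) * Complex.exp (x.2 * Complex.I))
    (ν.prod (ENNReal.ofReal (2 * π)⁻¹ • volume.restrict (Ioc (0 : ℝ) (2 * π))))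

/-- `M_p(τ; f; μ) = (∫ |f(τ w)|^p dμ(w))^{1/p}` -/
noncomputable def meanP (μ : Measure ℂ) (p : ℝ) (f : ℂ → ℂ) (τ : ℝ) : ℝ≥0∞ :=
  (∫⁻ w, ‖f (τ * w)‖ₑ ^ p ∂μ) ^ (1 / p)

/-- `‖f‖_{p,μ} = sup_{0 ≤ τ < 1} M_p(τ; f; μ)` -/
noncomputable def normE (μ : Measure ℂ) (p : ℝ) (f : ℂ → ℂ) : ℝ≥0∞ :=
  ⨆ τ ∈ Ico (0 : ℝ) 1, meanP μ p f τ

/-- the class `E^p(μ)` -/
def MemE (μ : Measure ℂ) (p : ℝ) (f : ℂ → ℂ) : Prop :=
  DifferentiableOn ℂ f (ball 0 1) ∧ normE μ p f < ⊤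

/-- weak invertibility in `E^p(μ)` -/
def WeaklyInvertible (μ : Measure ℂ) (p : ℝ) (f : ℂ → ℂ) : Prop :=
  MemE μ p f ∧ ∃ q : ℕ → ℂ[X],
    Tendsto (fun n => normE μ p (fun z => (q n).eval z * f z - 1)) atTop (𝓝 0)

end Pool.Agent.T2H70.WI
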