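import Pool.Agent.T2H70.WI.Fun

set_option autoImplicit false

open Complex Polynomial Metric Set Real MeasureTheory Filter Topology

namespace Pool.Agent.T2H70.WI

lemma add3_rpow_le {p x y z : ℝ} (hp : 0 < p) (hx : 0 ≤ x) (hy : 0 ≤ y) (hz : 0 ≤ z) :
    (x + y + z) ^ p ≤ 3 ^ p * (x ^ p + y ^ p + z ^ p) := by
  have h1 : x + y + z ≤ 3 * max x (max y z) := by
    have a1 := le_max_left x (max y z)
    have a2 := (le_max_left y z).trans (le_max_right x (max y z))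
    have a3 := (le_max_right y z).trans (le_max_right x (max y z))
    linarith
  have hm : 0 ≤ max x (max y z) := hx.trans (le_max_left _ _)
  have h2 : (max x (max y z)) ^ p ≤ x ^ p + y ^ p + z ^ p := by
    have b1 : 0 ≤ x ^ p := by positivity
    have b2 : 0 ≤ y ^ p := by positivity
    have b3 : 0 ≤ z ^ p := by positivity
    rcases max_choice x (max y z) with h | h
    · rw [h]; linarith
    · rw [h]
      rcases max_choice y z with h' | h'
      · rw [h']; linarith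
      · rw [h']; linarith
  calc (x + y + z) ^ p ≤ (3 * max x (max y z)) ^ p :=
        Real.rpow_le_rpow (by positivity) h1 hp.le
    _ = 3 ^ p * (max x (max y z)) ^ p := Real.mul_rpow (by norm_num) hm
    _ ≤ _ := by gcongr

namespace Sq

variable {h : ℝ} (d : Sq h)

noncomputable def mass (p : ℝ) (j : ℕ) : ℝ := (4 / 5) ^ j * Real.exp (-(p * d.H j))

lemma mass_pos (p : ℝ) (j : ℕ) : 0 < d.mass p j := by unfold mass; positivity

lemma mass_le (p : ℝ) (hp : 0 < p) (j : ℕ) : d.mass p j ≤ (4 / 5) ^ j * Real.exp (-(p * h)) := by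
  unfold mass
  have := (d.H_ge j).2.1
  gcongr

lemma mass_le' (p : ℝ) (hp : 0 < p) (j : ℕ) : d.mass p j ≤ (4 / 5) ^ j := by
  unfold mass
  have h1 : Real.exp (-(p * d.H j)) ≤ 1 := by
    rw [Real.exp_le_one_iff]
    have := d.H_pos j
    have : 0 < p * d.H j := by positivity
    linarith
  have h2 : (0 : ℝ) ≤ (4 / 5) ^ j := by positivity
  nlinarith

lemma geo : HasSum (fun j : ℕ => ((4 : ℝ) / 5) ^ j) 5 := by
  have := hasSum_geometric_of_lt_one (r := ((4 : ℝ) / 5)) (by norm_num) (by norm_num)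
  have e : (1 - (4 : ℝ) / 5)⁻¹ = 5 := by norm_num
  rwa [e] at this

lemma norm_g (θ : ℕ → ℝ) (z : ℂ) : ‖d.g θ z‖ = Real.exp ((d.L θ z).re) := by
  unfold g; rw [Complex.norm_exp]

lemma mass_mul_exp (p x : ℝ) (j : ℕ) (hx : x ≤ d.H j) (hp : 0 < p) :
    d.mass p j * (Real.exp x) ^ p ≤ (4 / 5) ^ j := by
  unfold mass
  rw [← Real.exp_mul, mul_assoc, ← Real.exp_add]
  have h1 : Real.exp (-(p * d.H j) + x * p) ≤ 1 := by
    rw [Real.exp_le_one_iff]
    nlinarith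
  have h2 : (0 : ℝ) ≤ (4 / 5) ^ j := by positivity
  nlinarith

/-- the full product is in the space -/
lemma upper_one (p : ℝ) (hp : 0 < p) (j : ℕ) (z : ℂ) (hz : ‖z‖ ≤ rad j) :
    d.mass p j * ‖d.g (fun _ => 1) z‖ ^ p ≤ Real.exp p * (4 / 5) ^ j := by
  rw [norm_g]
  have h1 := d.L_upper (fun _ => 1) (by intro; norm_num) (by intro; norm_num) 0
    (by intro i j; simp) j z hz
  have h2 := d.mass_mul_exp p ((d.L (fun _ => 1) z).re - 1) j (by linarith) hp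
  have h3 : (Real.exp ((d.L (fun _ => 1) z).re)) ^ p
      = Real.exp p * (Real.exp ((d.L (fun _ => 1) z).re - 1)) ^ p := by
    rw [← Real.exp_mul, ← Real.exp_mul, ← Real.exp_add]
    congr 1
    ring
  rw [h3]
  have h4 := Real.exp_pos p
  nlinarith

/-- fractional parts are in the space -/
lemma upper_frac (p : ℝ) (hp : 0 < p) (θ : ℕ → ℝ) (h0 : ∀ i, 0 ≤ θ i) (h1 : ∀ i, θ i ≤ 2 / 3)
    (j : ℕ) (z : ℂ) (hz : ‖z‖ ≤ rad j) :
    d.mass p j * ‖d.g θ z‖ ^ p ≤ (4 / 5) ^ j := by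
  rw [norm_g]
  have e1 := d.L_upper θ h0 (fun i => (h1 i).trans (by norm_num)) 1
    (by intro i k; rw [abs_le]; constructor <;> linarith [h0 i, h0 k, h1 i, h1 k]) j z hz
  apply d.mass_mul_exp p _ j _ hp
  have e2 := (d.H_ge j).1
  have e3 := d.K_nonneg j
  have e4 : θ j * d.H j ≤ 2 / 3 * d.H j := mul_le_mul_of_nonneg_right (h1 j) (d.H_pos j).le
  linarith

lemma upper_tail (p : ℝ) (hp : 0 < p) (θ : ℕ → ℝ) (h0 : ∀ i, 0 ≤ θ i) (h1 : ∀ i, θ i ≤ 2 / 3)
    (j k : ℕ) (hkj : k ≤ j) (z : ℂ) (hz : ‖z‖ ≤ rad j) :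
    d.mass p j * ‖Complex.exp (-d.P θ k z) * d.g θ z‖ ^ p ≤ (4 / 5) ^ j := by
  have e1 := d.L_upper θ h0 (fun i => (h1 i).trans (by norm_num)) 1
    (by intro i k; rw [abs_le]; constructor <;> linarith [h0 i, h0 k, h1 i, h1 k]) j z hz
  have e2 := (d.H_ge j).1
  have e3 := d.K_nonneg j
  have e4 : θ j * d.H j ≤ 2 / 3 * d.H j := mul_le_mul_of_nonneg_right (h1 j) (d.H_pos j).le
  have e5 := d.P_bound θ 1 (fun i => abs_le.2 ⟨by linarith [h0 i], by linarith [h1 i]⟩) k z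
    (hz.trans (rad_lt_one j).le)
  have e6 := (abs_le.1 (Complex.abs_re_le_norm (d.P θ k z))).1
  have e7 := d.K_mono hkj
  have e8 : ‖Complex.exp (-d.P θ k z) * d.g θ z‖ = Real.exp (-(d.P θ k z).re + (d.L θ z).re) := by
    rw [norm_mul, norm_g, Complex.norm_exp, ← Real.exp_add, Complex.neg_re]
  rw [e8]
  apply d.mass_mul_exp p _ j _ hp
  linarith

lemma near_one (θ : ℕ → ℝ) (h0 : ∀ i, 0 ≤ θ i) (h1 : ∀ i, θ i ≤ 2 / 3)
    (j k : ℕ) (hjk : j < k) (z : ℂ) (hz : ‖z‖ ≤ rad j) :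
    ‖Complex.exp (-d.P θ k z) * d.g θ z - 1‖ ≤ (1 / 2) ^ k := by
  have e1 := d.tail_bound θ (fun i => abs_le.2 ⟨by linarith [h0 i], by linarith [h1 i]⟩) hjk hz
  have e2 : Complex.exp (-d.P θ k z) * d.g θ z = Complex.exp (d.L θ z - d.P θ k z) := by
    unfold g; rw [← Complex.exp_add]; congr 1; ring
  rw [e2]
  have e3 : (1 / 2 : ℝ) ^ (k + 1) ≤ 1 := pow_le_one₀ (by norm_num) (by norm_num)
  have e4 := Complex.norm_exp_sub_one_le (e1.trans e3)
  calc _ ≤ _ := e4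
    _ ≤ 2 * (1 / 2) ^ (k + 1) := by linarith
    _ = (1 / 2) ^ k := by rw [pow_succ]; ring

lemma P_diff (θ : ℕ → ℝ) (k : ℕ) : Differentiable ℂ (d.P θ k) := by
  unfold P
  apply Differentiable.fun_sum
  intro i _
  exact (d.Q i).differentiable.const_mul _

lemma tail_sum (k : ℕ) : HasSum (fun j : ℕ => if k ≤ j then 2 * ((4 : ℝ) / 5) ^ j else 0)
    (10 * (4 / 5) ^ k) := by
  rw [← hasSum_nat_add_iff' k]
  have h0 : ∑ i ∈ Finset.range k, (if k ≤ i then 2 * ((4 : ℝ) / 5) ^ i else 0) = 0 := by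
    apply Finset.sum_eq_zero
    intro i hi
    rw [if_neg (by have := Finset.mem_range.1 hi; omega)]
  rw [h0, sub_zero]
  have := (geo.mul_left (2 * ((4 : ℝ) / 5) ^ k))
  have e2 : 2 * ((4 : ℝ) / 5) ^ k * 5 = 10 * (4 / 5) ^ k := by ring
  rw [e2] at this
  have e3 : (fun i : ℕ => if k ≤ i + k then 2 * ((4 : ℝ) / 5) ^ (i + k) else 0)
      = fun i => 2 * (4 / 5) ^ k * (4 / 5) ^ i := by
    funext i
    rw [if_pos (by omega), pow_add]
    ring
  rw [e3]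
  exact this

/-- weak invertibility of the fractional parts -/
theorem cyclic (p : ℝ) (hp : 0 < p) (θ : ℕ → ℝ) (h0 : ∀ i, 0 ≤ θ i) (h1 : ∀ i, θ i ≤ 2 / 3) :
    ∃ (T : ℕ → ℂ[X]) (b : ℕ → ℕ → ℝ), (∀ k j, 0 ≤ b k j) ∧ (∀ k, Summable (b k)) ∧
      Tendsto (fun k => ∑' j, b k j) atTop (𝓝 0) ∧
      ∀ k j (z : ℂ), ‖z‖ ≤ rad j → d.mass p j * ‖(T k).eval z * d.g θ z - 1‖ ^ p ≤ b k j := by
  have hT : ∀ k : ℕ, ∃ T : ℂ[X], ∀ z : ℂ, ‖z‖ ≤ 1 →
      ‖T.eval z - Complex.exp (-d.P θ k z)‖ ≤ (1 / 2) ^ k := fun k =>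
    poly_approx (fun z => Complex.exp (-d.P θ k z)) 1 2 (by norm_num) (by norm_num)
      ((d.P_diff θ k).neg.cexp.differentiableOn) _ (by positivity)
  choose T hT using hT
  have hsum : ∀ k : ℕ, HasSum (fun j : ℕ => 3 ^ p * (2 * ((1 / 2) ^ k) ^ p * ((4 : ℝ) / 5) ^ j
      + (if k ≤ j then 2 * ((4 : ℝ) / 5) ^ j else 0)))
      (3 ^ p * (2 * ((1 / 2) ^ k) ^ p * 5 + 10 * (4 / 5) ^ k)) := by
    intro k
    exact ((geo.mul_left _).add (tail_sum k)).mul_left _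
  refine ⟨T, fun k j => 3 ^ p * (2 * ((1 / 2) ^ k) ^ p * ((4 : ℝ) / 5) ^ j
      + (if k ≤ j then 2 * ((4 : ℝ) / 5) ^ j else 0)), ?_, fun k => (hsum k).summable, ?_, ?_⟩
  · intro k j
    have : (0 : ℝ) ≤ (if k ≤ j then 2 * ((4 : ℝ) / 5) ^ j else 0) := by split_ifs <;> positivity
    positivity
  · have e1 : (fun k : ℕ => ∑' j : ℕ, 3 ^ p * (2 * ((1 / 2) ^ k) ^ p * ((4 : ℝ) / 5) ^ j
      + (if k ≤ j then 2 * ((4 : ℝ) / 5) ^ j else 0)))
      = fun k : ℕ => (3 ^ p * (2 * (((1 / 2 : ℝ)) ^ p) ^ k * 5 + 10 * (4 / 5) ^ k)) := by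
      funext k
      rw [(hsum k).tsum_eq]
      congr 4
      rw [← Real.rpow_natCast, ← Real.rpow_mul (by norm_num), mul_comm,
        Real.rpow_mul (by norm_num), Real.rpow_natCast]
    rw [e1]
    have t1 : Tendsto (fun k : ℕ => (((1 / 2 : ℝ)) ^ p) ^ k) atTop (𝓝 0) :=
      tendsto_pow_atTop_nhds_zero_of_lt_one (by positivity)
        (Real.rpow_lt_one (by norm_num) (by norm_num) hp)
    have t2 : Tendsto (fun k : ℕ => ((4 / 5 : ℝ)) ^ k) atTop (𝓝 0) :=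
      tendsto_pow_atTop_nhds_zero_of_lt_one (by norm_num) (by norm_num)
    have t3 := (((t1.const_mul 2).mul_const 5).add (t2.const_mul 10)).const_mul ((3 : ℝ) ^ p)
    simpa using t3
  · intro k j z hz
    have hz1 : ‖z‖ ≤ 1 := hz.trans (rad_lt_one j).le
    have hm := (d.mass_pos p j).le
    have a1 : ‖(T k).eval z * d.g θ z - 1‖ ≤ (1 / 2) ^ k * ‖d.g θ z‖
        + ‖Complex.exp (-d.P θ k z) * d.g θ z - 1‖ := by
      have : (T k).eval z * d.g θ z - 1 = ((T k).eval z - Complex.exp (-d.P θ k z)) * d.g θ z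
        + (Complex.exp (-d.P θ k z) * d.g θ z - 1) := by ring
      rw [this]
      refine (norm_add_le _ _).trans ?_
      rw [norm_mul]
      have := hT k z hz1
      gcongr
    have a2 : d.mass p j * ((1 / 2 : ℝ) ^ k * ‖d.g θ z‖) ^ p
        ≤ ((1 / 2) ^ k) ^ p * (4 / 5) ^ j := by
      rw [Real.mul_rpow (by positivity) (norm_nonneg _)]
      have := d.upper_frac p hp θ h0 h1 j z hz
      have h5 : (0 : ℝ) ≤ ((1 / 2 : ℝ) ^ k) ^ p := by positivity
      nlinarith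
    have hm' := d.mass_le' p hp j
    by_cases hkj : k ≤ j
    · simp only [if_pos hkj]
      have a3 : ‖Complex.exp (-d.P θ k z) * d.g θ z - 1‖
          ≤ ‖Complex.exp (-d.P θ k z) * d.g θ z‖ + 1 := by
        refine (norm_sub_le _ _).trans ?_
        rw [norm_one]
      have a4 : ‖(T k).eval z * d.g θ z - 1‖ ^ p ≤ 3 ^ p * (((1 / 2) ^ k * ‖d.g θ z‖) ^ p
          + ‖Complex.exp (-d.P θ k z) * d.g θ z‖ ^ p + 1 ^ p) := by
        refine le_trans ?_ (add3_rpow_le hp (by positivity) (norm_nonneg _) zero_le_one)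
        apply Real.rpow_le_rpow (norm_nonneg _) _ hp.le
        linarith
      have a5 := d.upper_tail p hp θ h0 h1 j k hkj z hz
      rw [Real.one_rpow] at a4
      have a6 : (0 : ℝ) ≤ ((1 / 2 : ℝ) ^ k) ^ p * (4 / 5) ^ j := by positivity
      calc _ ≤ d.mass p j * (3 ^ p * (((1 / 2) ^ k * ‖d.g θ z‖) ^ p
          + ‖Complex.exp (-d.P θ k z) * d.g θ z‖ ^ p + 1)) := by gcongr
        _ = 3 ^ p * (d.mass p j * ((1 / 2) ^ k * ‖d.g θ z‖) ^ p
          + d.mass p j * ‖Complex.exp (-d.P θ k z) * d.g θ z‖ ^ p + d.mass p j) := by ring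
        _ ≤ _ := by
          apply mul_le_mul_of_nonneg_left _ (by positivity)
          linarith
    · simp only [if_neg hkj]
      have a3 := d.near_one θ h0 h1 j k (by omega) z hz
      have a4 : ‖(T k).eval z * d.g θ z - 1‖ ^ p ≤ 3 ^ p * (((1 / 2) ^ k * ‖d.g θ z‖) ^ p
          + ((1 / 2) ^ k) ^ p + 0 ^ p) := by
        refine le_trans ?_ (add3_rpow_le hp (by positivity) (by positivity) le_rfl)
        apply Real.rpow_le_rpow (norm_nonneg _) _ hp.le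
        linarith
      rw [Real.zero_rpow hp.ne'] at a4
      have a6 : d.mass p j * ((1 / 2 : ℝ) ^ k) ^ p ≤ ((1 / 2 : ℝ) ^ k) ^ p * (4 / 5) ^ j := by
        have h5 : (0 : ℝ) ≤ ((1 / 2 : ℝ) ^ k) ^ p := by positivity
        nlinarith
      calc _ ≤ d.mass p j * (3 ^ p * (((1 / 2) ^ k * ‖d.g θ z‖) ^ p
          + ((1 / 2) ^ k) ^ p + 0)) := by gcongr
        _ = 3 ^ p * (d.mass p j * ((1 / 2) ^ k * ‖d.g θ z‖) ^ p
          + d.mass p j * ((1 / 2) ^ k) ^ p) := by ring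
        _ ≤ _ := by
          apply mul_le_mul_of_nonneg_left _ (by positivity)
          linarith

end Sq

end Pool.Agent.T2H70.WI
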