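import Pool.Agent.T2H70.WI.Defs

set_option autoImplicit false

open Complex Polynomial Metric Set Real MeasureTheory Filter Topology
open scoped ENNReal

namespace Pool.Agent.T2H70.WI

/-- the atomic measure with masses `m j` at `r j` -/
noncomputable def atoms (m r : ℕ → ℝ) : Measure ℝ :=
  Measure.sum (fun j => ENNReal.ofReal (m j) • Measure.dirac (r j))

lemma measurable_polar : Measurable
    (fun x : ℝ × ℝ => (x.1 : ℂ) * Complex.exp (x.2 * Complex.I)) := by
  apply Continuous.measurable
  fun_prop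

lemma norm_polar (r θ : ℝ) (hr : 0 < r) : ‖(r : ℂ) * Complex.exp (θ * Complex.I)‖ = r := by
  rw [norm_mul, Complex.norm_exp_ofReal_mul_I, mul_one, Complex.norm_real, Real.norm_eq_abs,
    abs_of_pos hr]

lemma const_one : ENNReal.ofReal (2 * π)⁻¹ * volume (Ioc (0 : ℝ) (2 * π)) = 1 := by
  rw [Real.volume_Ioc, sub_zero, ← ENNReal.ofReal_mul (by positivity), inv_mul_cancel₀
    (by positivity), ENNReal.ofReal_one]

/-- upper bound for integrals against the symmetric measure -/
lemma lint_upper (m r : ℕ → ℝ) (hr : ∀ j, 0 < r j) (F : ℂ → ℝ≥0∞) (b : ℕ → ℝ≥0∞)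
    (hF : ∀ j z, ‖z‖ = r j → ENNReal.ofReal (m j) * F z ≤ b j) :
    ∫⁻ w, F w ∂(symmMeasure (atoms m r)) ≤ ∑' j, b j := by
  unfold symmMeasure atoms
  refine (lintegral_map_le _ _).trans ?_
  refine (lintegral_prod_le _).trans ?_
  rw [lintegral_sum_measure]
  apply ENNReal.tsum_le_tsum
  intro j
  rw [lintegral_smul_measure, lintegral_dirac, lintegral_smul_measure]
  simp only [smul_eq_mul]
  calc ENNReal.ofReal (m j) * (ENNReal.ofReal (2 * π)⁻¹ *
        ∫⁻ θ in Ioc (0 : ℝ) (2 * π), F ((r j : ℂ) * Complex.exp (θ * Complex.I)))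
      = ENNReal.ofReal (2 * π)⁻¹ * (ENNReal.ofReal (m j) *
        ∫⁻ θ in Ioc (0 : ℝ) (2 * π), F ((r j : ℂ) * Complex.exp (θ * Complex.I))) := by ring
    _ = ENNReal.ofReal (2 * π)⁻¹ *
        ∫⁻ θ in Ioc (0 : ℝ) (2 * π), ENNReal.ofReal (m j) *
          F ((r j : ℂ) * Complex.exp (θ * Complex.I)) := by
        rw [lintegral_const_mul' _ _ ENNReal.ofReal_ne_top]
    _ ≤ ENNReal.ofReal (2 * π)⁻¹ * ∫⁻ θ in Ioc (0 : ℝ) (2 * π), b j := by
        gcongr with θ
        exact hF j _ (norm_polar _ _ (hr j))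
    _ = b j := by
        rw [lintegral_const, Measure.restrict_apply_univ, mul_left_comm, const_one, mul_one]

/-- lower bound for integrals against the symmetric measure -/
lemma lint_lower (m r : ℕ → ℝ) (hr : ∀ j, 0 < r j) (hr1 : ∀ j, r j < 1)
    (G : ℂ → ℝ) (hG0 : ∀ z, 0 ≤ G z) (hG : ContinuousOn G (closedBall 0 1)) (J : ℕ)
    (hm : ∀ j, 0 ≤ m j) :
    ENNReal.ofReal (∑ j ∈ Finset.range J, m j * Real.circleAverage G 0 (r j))
      ≤ ∫⁻ w, ENNReal.ofReal (G w) ∂(symmMeasure (atoms m r)) := by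
  set F' : ℂ → ℝ≥0∞ := (closedBall (0 : ℂ) 1).indicator (fun w => ENNReal.ofReal (G w)) with hF'
  have hmeas : Measurable F' := by
    rw [hF']
    have hc : ContinuousOn (fun w => ENNReal.ofReal (G w)) (closedBall 0 1) :=
      ENNReal.continuous_ofReal.comp_continuousOn hG
    classical
    rw [← Set.piecewise_eq_indicator]
    exact hc.measurable_piecewise continuousOn_const isClosed_closedBall.measurableSet
  have h1 : ∫⁻ w, F' w ∂(symmMeasure (atoms m r))
      ≤ ∫⁻ w, ENNReal.ofReal (G w) ∂(symmMeasure (atoms m r)) := by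
    apply lintegral_mono
    intro w
    exact Set.indicator_le_self _ _ w
  refine le_trans ?_ h1
  unfold symmMeasure atoms
  have hm2 : Measurable (fun x : ℝ × ℝ => F' ((x.1 : ℂ) * Complex.exp (x.2 * Complex.I))) :=
    hmeas.comp measurable_polar
  rw [lintegral_map hmeas measurable_polar, lintegral_prod _ hm2.aemeasurable,
    lintegral_sum_measure]
  refine le_trans ?_ (ENNReal.sum_le_tsum (Finset.range J))
  have hav : ∀ j, 0 ≤ Real.circleAverage G 0 (r j) := by
    intro j
    apply Real.circleAverage_nonneg_of_nonneg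
    intro z _
    exact hG0 z
  rw [ENNReal.ofReal_sum_of_nonneg (fun j _ => mul_nonneg (hm j) (hav j))]
  apply Finset.sum_le_sum
  intro j _
  rw [lintegral_smul_measure, lintegral_dirac, lintegral_smul_measure]
  simp only [smul_eq_mul]
  rw [ENNReal.ofReal_mul (hm j)]
  gcongr
  apply le_of_eq
  unfold Real.circleAverage
  rw [smul_eq_mul, ENNReal.ofReal_mul (by positivity),
    intervalIntegral.integral_of_le (by positivity)]
  congr 1
  have hint : Integrable (fun θ => G (circleMap 0 (r j) θ)) (volume.restrict (Ioc 0 (2 * π))) := by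
    have : ContinuousOn (fun θ => G (circleMap 0 (r j) θ)) (Icc 0 (2 * π)) := by
      apply hG.comp (continuous_circleMap 0 (r j)).continuousOn
      intro θ _
      rw [mem_closedBall_zero_iff, norm_circleMap_zero, abs_of_pos (hr j)]
      exact (hr1 j).le
    exact (this.integrableOn_Icc).mono_set Ioc_subset_Icc_self
  rw [ofReal_integral_eq_lintegral_ofReal hint (Eventually.of_forall fun θ => hG0 _)]
  apply lintegral_congr
  intro θ
  have e : circleMap 0 (r j) θ = (r j : ℂ) * Complex.exp (θ * Complex.I) := by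
    simp [circleMap]
  rw [hF', e]
  rw [Set.indicator_of_mem]
  rw [mem_closedBall_zero_iff, norm_polar _ _ (hr j)]
  exact (hr1 j).le

end Pool.Agent.T2H70.WI
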