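import Pool.Agent.T2H70.WI.Big
import Pool.Agent.T2H70.WI.Meas

set_option autoImplicit false

open Complex Polynomial Metric Set Real MeasureTheory Filter Topology
open scoped ENNReal

namespace Pool.Agent.T2H70.WI
namespace Sq

variable {h : ℝ} (d : Sq h)

noncomputable def nu (p : ℝ) : Measure ℝ := atoms (d.mass p) rad

lemma nu_radial (p : ℝ) (hp : 0 < p) : IsRadialPart (d.nu p) := by
  have hm0 : ∀ j, 0 ≤ d.mass p j := fun j => (d.mass_pos p j).le
  refine ⟨?_, ?_, ?_, ?_⟩
  · unfold nu atoms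
    rw [Measure.sum_apply _ MeasurableSet.univ]
    have h1 : ∀ j, (ENNReal.ofReal (d.mass p j) • Measure.dirac (rad j)) univ
        ≤ ENNReal.ofReal ((4 / 5) ^ j) := by
      intro j
      rw [Measure.smul_apply, measure_univ, smul_eq_mul, mul_one]
      exact ENNReal.ofReal_le_ofReal (d.mass_le' p hp j)
    refine (ENNReal.tsum_le_tsum h1).trans_lt ?_
    rw [← ENNReal.ofReal_tsum_of_nonneg (fun j => by positivity) geo.summable]
    exact ENNReal.ofReal_lt_top
  · unfold nu atoms
    rw [Measure.sum_apply _ measurableSet_Icc.compl, ENNReal.tsum_eq_zero]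
    intro j
    rw [Measure.smul_apply, Measure.dirac_apply' _ measurableSet_Icc.compl,
      Set.indicator_of_notMem, smul_zero]
    simp only [mem_compl_iff, not_not, mem_Icc]
    exact ⟨(rad_pos j).le, (rad_lt_one j).le⟩
  · unfold nu atoms
    rw [Measure.sum_apply _ (measurableSet_singleton _), ENNReal.tsum_eq_zero]
    intro j
    rw [Measure.smul_apply, Measure.dirac_apply' _ (measurableSet_singleton _),
      Set.indicator_of_notMem, smul_zero]
    simp only [mem_singleton_iff]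
    exact (rad_pos j).ne'
  · intro τ h0 h1
    obtain ⟨j, hj⟩ := exists_rad (z := (τ : ℂ)) (by
      rw [Complex.norm_real, Real.norm_eq_abs, abs_of_nonneg h0]; exact h1)
    rw [Complex.norm_real, Real.norm_eq_abs, abs_of_nonneg h0] at hj
    unfold nu atoms
    rw [Measure.sum_apply _ measurableSet_Icc]
    refine lt_of_lt_of_le ?_ (ENNReal.le_tsum j)
    rw [Measure.smul_apply, Measure.dirac_apply' _ measurableSet_Icc,
      Set.indicator_of_mem (show rad j ∈ Icc τ 1 from ⟨hj.le, (rad_lt_one j).le⟩)]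
    simp only [Pi.one_apply, smul_eq_mul, mul_one, ENNReal.ofReal_pos]
    exact d.mass_pos p j

lemma norm_upper (p s : ℝ) (hs : 0 < s) (u : ℂ → ℂ) (b : ℕ → ℝ) (hb : ∀ j, 0 ≤ b j)
    (hsum : Summable b) (hu : ∀ j (z : ℂ), ‖z‖ ≤ rad j → d.mass p j * ‖u z‖ ^ s ≤ b j) :
    normE (symmMeasure (d.nu p)) s u ≤ (ENNReal.ofReal (∑' j, b j)) ^ (1 / s) := by
  unfold normE
  apply iSup₂_le
  intro τ hτ
  unfold meanP
  apply ENNReal.rpow_le_rpow _ (by positivity)
  rw [ENNReal.ofReal_tsum_of_nonneg hb hsum]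
  apply lint_upper (d.mass p) rad rad_pos
  intro j z hz
  rw [← ofReal_norm, ENNReal.ofReal_rpow_of_nonneg (norm_nonneg _) hs.le,
    ← ENNReal.ofReal_mul (d.mass_pos p j).le]
  apply ENNReal.ofReal_le_ofReal
  apply hu
  rw [norm_mul, hz, Complex.norm_real, Real.norm_eq_abs, abs_of_nonneg hτ.1]
  have := rad_pos j
  nlinarith [hτ.2]

lemma norm_lower (p s : ℝ) (hs : 0 < s) (u : ℂ → ℂ) (hu : DifferentiableOn ℂ u (ball 0 1))
    (J : ℕ) :
    ENNReal.ofReal (∑ j ∈ Finset.range J, d.mass p j *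
      Real.circleAverage (fun z => ‖u z‖ ^ s) 0 (rad j))
      ≤ (normE (symmMeasure (d.nu p)) s u) ^ s := by
  set A : ℝ → ℝ := fun r => Real.circleAverage (fun z => ‖u z‖ ^ s) 0 r with hA
  have hc : ContinuousOn (fun z => ‖u z‖ ^ s) (ball 0 1) := by
    apply ContinuousOn.rpow_const _ (fun _ _ => Or.inr hs.le)
    exact hu.continuousOn.norm
  have hAc : ContinuousOn A (Ico 0 1) := by
    apply ContinuousOn.circleAverage
    · apply hc.mono
      intro z hz
      simp only [sub_zero, mem_ofPred_eq, mem_Ico] at hz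
      simpa using hz.2
    · intro r hr
      exact hr.1
  have key : ∀ τ ∈ Ico (0 : ℝ) 1, ENNReal.ofReal (∑ j ∈ Finset.range J, d.mass p j * A (τ * rad j))
      ≤ (normE (symmMeasure (d.nu p)) s u) ^ s := by
    intro τ hτ
    have hGc : ContinuousOn (fun z : ℂ => ‖u (τ * z)‖ ^ s) (closedBall 0 1) := by
      apply hc.comp (f := fun z : ℂ => (τ : ℂ) * z) (by fun_prop)
      intro z hz
      rw [mem_ball_zero_iff, norm_mul, Complex.norm_real, Real.norm_eq_abs, abs_of_nonneg hτ.1]
      rw [mem_closedBall_zero_iff] at hz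
      calc τ * ‖z‖ ≤ τ * 1 := mul_le_mul_of_nonneg_left hz hτ.1
        _ < 1 := by rw [mul_one]; exact hτ.2
    have h1 := lint_lower (d.mass p) rad rad_pos rad_lt_one (fun z : ℂ => ‖u (τ * z)‖ ^ s)
      (fun z => by positivity) hGc J (fun j => (d.mass_pos p j).le)
    have h2 : ∀ j, Real.circleAverage (fun z : ℂ => ‖u (τ * z)‖ ^ s) 0 (rad j) = A (τ * rad j) := by
      intro j
      rw [hA]
      unfold Real.circleAverage
      congr 2
      funext θ
      have : circleMap 0 (τ * rad j) θ = τ * circleMap 0 (rad j) θ := by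
        simp [circleMap]; ring
      rw [this]
    simp only [h2] at h1
    refine h1.trans ?_
    have h3 : ∫⁻ w, ENNReal.ofReal (‖u (τ * w)‖ ^ s) ∂(symmMeasure (d.nu p))
        = (meanP (symmMeasure (d.nu p)) s u τ) ^ s := by
      unfold meanP
      rw [← ENNReal.rpow_mul, one_div, inv_mul_cancel₀ hs.ne', ENNReal.rpow_one]
      apply lintegral_congr
      intro w
      rw [← ofReal_norm, ENNReal.ofReal_rpow_of_nonneg (norm_nonneg _) hs.le]
    have h4 : symmMeasure (atoms (d.mass p) rad) = symmMeasure (d.nu p) := rfl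
    rw [h4, h3]
    apply ENNReal.rpow_le_rpow _ hs.le
    unfold normE
    exact le_iSup₂ (f := fun τ (_ : τ ∈ Ico (0:ℝ) 1) => meanP (symmMeasure (d.nu p)) s u τ) τ hτ
  have hlim : Tendsto (fun τ : ℝ => ENNReal.ofReal
      (∑ j ∈ Finset.range J, d.mass p j * A (τ * rad j))) (𝓝[<] 1)
      (𝓝 (ENNReal.ofReal (∑ j ∈ Finset.range J, d.mass p j * A (rad j)))) := by
    apply ENNReal.tendsto_ofReal
    apply tendsto_finsetSum
    intro j _
    apply Tendsto.const_mul
    have hca : ContinuousAt A (rad j) :=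
      hAc.continuousAt (Ico_mem_nhds (rad_pos j) (rad_lt_one j))
    have h5 : Tendsto (fun τ : ℝ => τ * rad j) (𝓝[<] 1) (𝓝 (rad j)) := by
      have : Tendsto (fun τ : ℝ => τ * rad j) (𝓝 1) (𝓝 (1 * rad j)) :=
        tendsto_id.mul_const _
      rw [one_mul] at this
      exact this.mono_left nhdsWithin_le_nhds
    exact hca.tendsto.comp h5
  refine le_of_tendsto hlim ?_
  have h6 : ∀ᶠ τ in 𝓝[<] (1 : ℝ), τ ∈ Ico (0 : ℝ) 1 := by
    filter_upwards [Ioo_mem_nhdsLT (show (0 : ℝ) < 1 by norm_num)] with τ hτ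
    exact ⟨hτ.1.le, hτ.2⟩
  filter_upwards [h6] with τ hτ
  exact key τ hτ

end Sq
end Pool.Agent.T2H70.WI
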