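import Pool.Agent.T2H70.WI.Build
import Pool.Agent.T2H70.WI.Approx

set_option autoImplicit false

open Complex Polynomial Metric Set Real MeasureTheory Filter Topology

namespace Pool.Agent.T2H70.WI

/-- the output of the construction -/
structure Sq (h : ℝ) where
  st : ℕ → ℂ[X] × ℝ
  N : ℕ → ℕ
  h6 : 6 ≤ h
  zero : st 0 = (0, 0)
  good : ∀ j, Good (st j)
  rel : ∀ j, Rel h j (st j) (st (j + 1)) (N j)

theorem exists_Sq (h : ℝ) (hh : 6 ≤ h) : Nonempty (Sq h) := by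
  obtain ⟨st, N, h0, h1, h2⟩ := exists_seq h hh
  exact ⟨⟨st, N, hh, h0, h1, h2⟩⟩

namespace Sq

variable {h : ℝ} (d : Sq h)

noncomputable def S (i : ℕ) : ℂ[X] := (d.st i).1
noncomputable def Q (i : ℕ) : ℂ[X] := d.S (i + 1) - d.S i
noncomputable def K (i : ℕ) : ℝ := (d.st i).2
noncomputable def H (j : ℕ) : ℝ := ht h (d.K j) j
noncomputable def P (θ : ℕ → ℝ) (k : ℕ) (z : ℂ) : ℂ :=
  ∑ i ∈ Finset.range k, (θ i : ℂ) * (d.Q i).eval z
noncomputable def L (θ : ℕ → ℝ) (z : ℂ) : ℂ := ∑' i, (θ i : ℂ) * (d.Q i).eval z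
noncomputable def g (θ : ℕ → ℝ) (z : ℂ) : ℂ := Complex.exp (d.L θ z)

lemma S_zero : d.S 0 = 0 := by unfold S; rw [d.zero]
lemma K_zero : d.K 0 = 0 := by unfold K; rw [d.zero]
lemma K_nonneg (j : ℕ) : 0 ≤ d.K j := (d.good j).1

lemma Q_zero (i : ℕ) : (d.Q i).eval 0 = 0 := (d.rel i).1

lemma Q_bound (i : ℕ) (z : ℂ) (hz : ‖z‖ ≤ 1) : ‖(d.Q i).eval z‖ ≤ d.K (i + 1) - d.K i :=
  (d.rel i).2.2.1 z hz

lemma K_mono : Monotone d.K := by
  apply monotone_nat_of_le_succ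
  intro i
  have := d.Q_bound i 0 (by simp)
  have := norm_nonneg ((d.Q i).eval 0)
  linarith

lemma H_ge (j : ℕ) : 6 * (d.K j + 1) ≤ d.H j ∧ h ≤ d.H j ∧ (j + 1) * (d.K j + j + 1) ≤ d.H j := by
  have h1 := d.K_nonneg j
  have h2 := d.h6
  have h3 : (0 : ℝ) ≤ j := Nat.cast_nonneg j
  unfold H ht
  refine ⟨?_, ?_, ?_⟩ <;> nlinarith [mul_nonneg h3 h1, mul_nonneg h3 h3]

lemma H_pos (j : ℕ) : 0 < d.H j := by
  have := (d.H_ge j).1
  have := d.K_nonneg j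
  linarith

lemma rad_mono : Monotone rad := monotone_nat_of_le_succ fun j => (rad_lt_succ j).le

lemma Q_small {i j : ℕ} (hij : j < i) {z : ℂ} (hz : ‖z‖ ≤ rad j) :
    ‖(d.Q i).eval z‖ ≤ (1 / 2) ^ (i + 2) := by
  apply (d.rel i).2.1 z
  obtain ⟨k, rfl⟩ : ∃ k, i = k + 1 := ⟨i - 1, by omega⟩
  rw [prad_succ]
  exact hz.trans (rad_mono (by omega))

lemma P_bound (θ : ℕ → ℝ) (c : ℝ) (hc : ∀ i, |θ i| ≤ c) (k : ℕ) (z : ℂ) (hz : ‖z‖ ≤ 1) :
    ‖d.P θ k z‖ ≤ c * d.K k := by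
  have hc0 : 0 ≤ c := (abs_nonneg _).trans (hc 0)
  unfold P
  calc ‖∑ i ∈ Finset.range k, (θ i : ℂ) * (d.Q i).eval z‖
      ≤ ∑ i ∈ Finset.range k, ‖(θ i : ℂ) * (d.Q i).eval z‖ := norm_sum_le _ _
    _ ≤ ∑ i ∈ Finset.range k, c * (d.K (i + 1) - d.K i) := by
        apply Finset.sum_le_sum
        intro i _
        rw [norm_mul, Complex.norm_real, Real.norm_eq_abs]
        exact mul_le_mul (hc i) (d.Q_bound i z hz) (norm_nonneg _) hc0
    _ = c * d.K k := by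
        rw [← Finset.mul_sum, Finset.sum_range_sub, d.K_zero, sub_zero]

lemma term_summable (θ : ℕ → ℝ) (hθ : ∀ i, |θ i| ≤ 1) {j : ℕ} {z : ℂ} (hz : ‖z‖ ≤ rad j) :
    Summable (fun i => (θ i : ℂ) * (d.Q i).eval z) := by
  rw [← summable_nat_add_iff (j + 1)]
  apply Summable.of_norm_bounded (g := fun i => (1 / 2 : ℝ) ^ i)
    (summable_geometric_of_lt_one (by norm_num) (by norm_num))
  intro i
  rw [norm_mul, Complex.norm_real, Real.norm_eq_abs]
  calc |θ (i + (j + 1))| * ‖(d.Q (i + (j + 1))).eval z‖ ≤ 1 * (1 / 2) ^ (i + (j + 1) + 2) :=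
        mul_le_mul (hθ _) (d.Q_small (by omega) hz) (norm_nonneg _) (by norm_num)
    _ ≤ (1 / 2) ^ i := by
        rw [one_mul]; exact pow_le_pow_of_le_one (by norm_num) (by norm_num) (by omega)

lemma tail_bound (θ : ℕ → ℝ) (hθ : ∀ i, |θ i| ≤ 1) {j k : ℕ} (hjk : j < k) {z : ℂ}
    (hz : ‖z‖ ≤ rad j) : ‖d.L θ z - d.P θ k z‖ ≤ (1 / 2) ^ (k + 1) := by
  have hs := d.term_summable θ hθ hz
  have h1 : d.L θ z - d.P θ k z = ∑' i, (θ (i + k) : ℂ) * (d.Q (i + k)).eval z := by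
    unfold L P
    rw [← hs.sum_add_tsum_nat_add k]
    ring
  rw [h1]
  have hb : ∀ i, ‖(θ (i + k) : ℂ) * (d.Q (i + k)).eval z‖ ≤ (1 / 2) ^ (k + 2) * (1 / 2) ^ i := by
    intro i
    rw [norm_mul, Complex.norm_real, Real.norm_eq_abs]
    calc |θ (i + k)| * ‖(d.Q (i + k)).eval z‖ ≤ 1 * (1 / 2) ^ (i + k + 2) :=
        mul_le_mul (hθ _) (d.Q_small (by omega) hz) (norm_nonneg _) (by norm_num)
      _ = _ := by rw [one_mul, ← pow_add]; congr 1; omega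
  have hg : HasSum (fun i : ℕ => ((1 / 2 : ℝ)) ^ (k + 2) * (1 / 2) ^ i) ((1 / 2) ^ (k + 2) * 2) := by
    exact HasSum.mul_left _ hasSum_geometric_two
  have := tsum_of_norm_bounded hg hb
  refine this.trans (le_of_eq ?_)
  rw [pow_succ (1 / 2 : ℝ) (k + 1)]
  ring

lemma S_eq (k : ℕ) (z : ℂ) : (d.S k).eval z = ∑ i ∈ Finset.range k, (d.Q i).eval z := by
  have : ∀ i, (d.Q i).eval z = (d.S (i + 1)).eval z - (d.S i).eval z := by
    intro i; unfold Q; rw [eval_sub]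
  simp only [this]
  rw [Finset.sum_range_sub (fun i => (d.S i).eval z), d.S_zero]
  simp

lemma P_split (θ : ℕ → ℝ) (j : ℕ) (z : ℂ) :
    d.P θ (j + 1) z = (θ j : ℂ) * (d.S (j + 1)).eval z + d.P (fun i => θ i - θ j) j z := by
  rw [d.S_eq]
  unfold P
  rw [Finset.sum_range_succ, Finset.sum_range_succ, mul_add, Finset.mul_sum]
  have : ∑ i ∈ Finset.range j, ((θ i - θ j : ℝ) : ℂ) * (d.Q i).eval z
      = ∑ i ∈ Finset.range j, (θ i : ℂ) * (d.Q i).eval z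
        - ∑ i ∈ Finset.range j, (θ j : ℂ) * (d.Q i).eval z := by
    rw [← Finset.sum_sub_distrib]
    apply Finset.sum_congr rfl
    intro i _
    push_cast
    ring
  rw [this]
  ring

lemma S_re_le (j : ℕ) (z : ℂ) (hz : ‖z‖ ≤ rad j) : ((d.S (j + 1)).eval z).re ≤ d.H j := by
  have h1 : ‖Complex.exp ((d.S (j + 1)).eval z)‖ ≤ Real.exp (d.H j) := by
    apply Complex.norm_le_of_forall_mem_frontier_norm_le (U := ball (0:ℂ) (rad j))
      (f := fun z => Complex.exp ((d.S (j + 1)).eval z)) isBounded_ball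
    · apply Differentiable.diffContOnCl
      exact (d.S (j + 1)).differentiable.cexp
    · intro w hw
      rw [frontier_ball _ (rad_pos j).ne'] at hw
      have hw' : ‖w‖ = rad j := by simpa using hw
      rw [Complex.norm_exp]
      exact Real.exp_le_exp.2 ((d.rel j).2.2.2.1 w hw')
    · rw [closure_ball _ (rad_pos j).ne']
      simpa using hz
  rw [Complex.norm_exp] at h1
  exact Real.exp_le_exp.1 h1

lemma L_upper (θ : ℕ → ℝ) (h0 : ∀ i, 0 ≤ θ i) (h1 : ∀ i, θ i ≤ 1) (c : ℝ)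
    (hc : ∀ i j, |θ i - θ j| ≤ c) (j : ℕ) (z : ℂ) (hz : ‖z‖ ≤ rad j) :
    (d.L θ z).re ≤ θ j * d.H j + c * d.K j + 1 := by
  have habs : ∀ i, |θ i| ≤ 1 := fun i => abs_le.2 ⟨by linarith [h0 i], h1 i⟩
  have hz1 : ‖z‖ ≤ 1 := hz.trans (rad_lt_one j).le
  have e1 : ‖d.L θ z - d.P θ (j + 1) z‖ ≤ (1 / 2) ^ (j + 1 + 1) :=
    d.tail_bound θ habs (Nat.lt_succ_self j) hz
  have e2 := d.P_bound (fun i => θ i - θ j) c (fun i => hc i j) j z hz1
  have e3 := d.S_re_le j z hz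
  have e4 : (1 / 2 : ℝ) ^ (j + 1 + 1) ≤ 1 := pow_le_one₀ (by norm_num) (by norm_num)
  have e5 := (abs_le.1 (Complex.abs_re_le_norm (d.L θ z - d.P θ (j + 1) z))).2
  have e6 := (abs_le.1 (Complex.abs_re_le_norm (d.P (fun i => θ i - θ j) j z))).2
  have e7 : (d.P θ (j + 1) z).re = θ j * ((d.S (j + 1)).eval z).re
      + (d.P (fun i => θ i - θ j) j z).re := by
    rw [d.P_split, Complex.add_re, Complex.re_ofReal_mul]
  rw [Complex.sub_re] at e5
  have e8 : θ j * ((d.S (j + 1)).eval z).re ≤ θ j * d.H j := mul_le_mul_of_nonneg_left e3 (h0 j)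
  linarith

lemma L_lower (θ : ℕ → ℝ) (h0 : ∀ i, 0 ≤ θ i) (h1 : ∀ i, θ i ≤ 1) (c : ℝ)
    (hc : ∀ i j, |θ i - θ j| ≤ c) (j : ℕ) (z : ℂ) (hz : ‖z‖ = rad j)
    (hz2 : -(1 / 2) ≤ ((z / rad j) ^ (d.N j)).re) :
    θ j * (d.H j - 1) - c * d.K j - 1 ≤ (d.L θ z).re := by
  have habs : ∀ i, |θ i| ≤ 1 := fun i => abs_le.2 ⟨by linarith [h0 i], h1 i⟩
  have hz1 : ‖z‖ ≤ 1 := hz.le.trans (rad_lt_one j).le
  have e1 : ‖d.L θ z - d.P θ (j + 1) z‖ ≤ (1 / 2) ^ (j + 1 + 1) :=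
    d.tail_bound θ habs (Nat.lt_succ_self j) hz.le
  have e2 := d.P_bound (fun i => θ i - θ j) c (fun i => hc i j) j z hz1
  have e3 : d.H j - 1 ≤ ((d.S (j + 1)).eval z).re := (d.rel j).2.2.2.2.1 z hz hz2
  have e4 : (1 / 2 : ℝ) ^ (j + 1 + 1) ≤ 1 := pow_le_one₀ (by norm_num) (by norm_num)
  have e5 := (abs_le.1 (Complex.abs_re_le_norm (d.L θ z - d.P θ (j + 1) z))).1
  have e6 := (abs_le.1 (Complex.abs_re_le_norm (d.P (fun i => θ i - θ j) j z))).1
  have e7 : (d.P θ (j + 1) z).re = θ j * ((d.S (j + 1)).eval z).re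
      + (d.P (fun i => θ i - θ j) j z).re := by
    rw [d.P_split, Complex.add_re, Complex.re_ofReal_mul]
  rw [Complex.sub_re] at e5
  have e8 : θ j * (d.H j - 1) ≤ θ j * ((d.S (j + 1)).eval z).re :=
    mul_le_mul_of_nonneg_left e3 (h0 j)
  linarith

lemma exists_rad {z : ℂ} (hz : ‖z‖ < 1) : ∃ j, ‖z‖ < rad j := by
  have h1 : Tendsto rad atTop (𝓝 1) := by
    have h2 : Tendsto (fun j : ℕ => 1 - 1 / ((j : ℝ) + 2)) atTop (𝓝 (1 - 0)) := by
      apply Tendsto.const_sub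
      apply Tendsto.div_atTop tendsto_const_nhds
      exact tendsto_atTop_add_const_right _ _ tendsto_natCast_atTop_atTop
    rw [sub_zero] at h2
    refine h2.congr fun j => ?_
    unfold rad
    field_simp
    ring
  exact ((h1.eventually (lt_mem_nhds hz))).exists

lemma L_diff (θ : ℕ → ℝ) (hθ : ∀ i, |θ i| ≤ 1) : DifferentiableOn ℂ (d.L θ) (ball 0 1) := by
  intro z hz
  obtain ⟨j, hj⟩ := exists_rad (z := z) (by simpa using hz)
  have h1 : DifferentiableOn ℂ (d.L θ) (ball 0 (rad j)) := by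
    have hu : Summable (fun i => if i ≤ j then d.K (i + 1) - d.K i else (1 / 2 : ℝ) ^ (i + 2)) := by
      rw [← summable_nat_add_iff (j + 1)]
      apply Summable.of_nonneg_of_le (f := fun i => (1 / 2 : ℝ) ^ i)
      · intro i
        rw [if_neg (by omega)]; positivity
      · intro i
        rw [if_neg (by omega)]
        exact pow_le_pow_of_le_one (by norm_num) (by norm_num) (by omega)
      · exact summable_geometric_of_lt_one (by norm_num) (by norm_num)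
    apply differentiableOn_tsum_of_summable_norm hu (fun i => ?_) isOpen_ball
    · intro i w hw
      have hw' : ‖w‖ ≤ rad j := by simpa using (mem_ball_zero_iff.1 hw).le
      rw [norm_mul, Complex.norm_real, Real.norm_eq_abs]
      split_ifs with hij
      · calc |θ i| * ‖(d.Q i).eval w‖ ≤ 1 * (d.K (i + 1) - d.K i) :=
            mul_le_mul (hθ i) (d.Q_bound i w (hw'.trans (rad_lt_one j).le)) (norm_nonneg _)
              (by norm_num)
          _ = _ := one_mul _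
      · calc |θ i| * ‖(d.Q i).eval w‖ ≤ 1 * (1 / 2) ^ (i + 2) :=
            mul_le_mul (hθ i) (d.Q_small (by omega) hw') (norm_nonneg _) (by norm_num)
          _ = _ := one_mul _
    · exact ((d.Q i).differentiable.const_mul _).differentiableOn
  exact (h1.differentiableAt (isOpen_ball.mem_nhds (by simpa using hj))).differentiableWithinAt

lemma g_diff (θ : ℕ → ℝ) (hθ : ∀ i, |θ i| ≤ 1) : DifferentiableOn ℂ (d.g θ) (ball 0 1) :=
  (d.L_diff θ hθ).cexp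

lemma L_zero (θ : ℕ → ℝ) : d.L θ 0 = 0 := by
  unfold L
  simp [d.Q_zero]

lemma g_zero (θ : ℕ → ℝ) : d.g θ 0 = 1 := by
  unfold g; rw [d.L_zero, Complex.exp_zero]

lemma g_mul (θ η : ℕ → ℝ) (hθ : ∀ i, |θ i| ≤ 1) (hη : ∀ i, |η i| ≤ 1) {z : ℂ} (hz : ‖z‖ < 1) :
    d.g θ z * d.g η z = d.g (fun i => θ i + η i) z := by
  obtain ⟨j, hj⟩ := exists_rad hz
  unfold g
  rw [← Complex.exp_add]
  congr 1
  unfold L
  rw [← (d.term_summable θ hθ hj.le).tsum_add (d.term_summable η hη hj.le)]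
  congr 1
  funext i
  push_cast
  ring

end Sq

end Pool.Agent.T2H70.WI
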