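import Pool.Agent.T2H70.WI.Fin

set_option autoImplicit false

open Complex Polynomial Metric Set Real MeasureTheory Filter Topology
open scoped ENNReal

namespace Pool.Agent.T2H70.WI
namespace Sq

lemma sum_mass_le {h : ℝ} (d : Sq h) (p : ℝ) (hp : 0 < p) (J : ℕ) :
    ∑ j ∈ Finset.range J, d.mass p j ≤ 5 * Real.exp (-(p * h)) := by
  calc ∑ j ∈ Finset.range J, d.mass p j
      ≤ ∑ j ∈ Finset.range J, (4 / 5) ^ j * Real.exp (-(p * h)) :=
        Finset.sum_le_sum fun j _ => d.mass_le p hp j
    _ = (∑ j ∈ Finset.range J, ((4 : ℝ) / 5) ^ j) * Real.exp (-(p * h)) := by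
        rw [Finset.sum_mul]
    _ ≤ 5 * Real.exp (-(p * h)) := by
        apply mul_le_mul_of_nonneg_right _ (Real.exp_pos _).le
        exact sum_le_hasSum _ (fun j _ => by positivity) geo

theorem key_lower (p : ℝ) (hp : 0 < p) (d : Sq (6 + 5 / p)) :
    ∃ ε : ℝ, 0 < ε ∧ ∀ q : ℂ[X], ∃ J : ℕ, ε ≤ ∑ j ∈ Finset.range J, d.mass p j *
      Real.circleAverage (fun z => ‖q.eval z * d.g (fun _ => 1) z - 1‖ ^ p) 0 (rad j) := by
  set C : ℝ := 3 ^ p * (Real.exp (2 * p) * 3 ^ p + 1 / d.mass p 0) with hC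
  have hm0 := d.mass_pos p 0
  have hCpos : 0 < C := by rw [hC]; positivity
  refine ⟨1 / (12 * C), by positivity, fun q => ?_⟩
  by_contra hcon
  push Not at hcon
  set ε := 1 / (12 * C) with hε
  have hε0 : 0 < ε := by rw [hε]; positivity
  have hdiff : DifferentiableOn ℂ (fun z => q.eval z * d.g (fun _ => 1) z - 1) (ball 0 1) := by
    apply DifferentiableOn.sub_const
    apply DifferentiableOn.mul q.differentiable.differentiableOn
    exact d.g_diff (fun _ => 1) (fun _ => by norm_num)
  have hc1 : ContinuousOn (fun z => ‖q.eval z * d.g (fun _ => 1) z - 1‖ ^ p) (ball 0 1) :=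
    ContinuousOn.rpow_const hdiff.continuousOn.norm (fun _ _ => Or.inr hp.le)
  have hc2 : ContinuousOn (fun z => ‖q.eval z * d.g (fun _ => 1) z‖ ^ p) (ball 0 1) := by
    apply ContinuousOn.rpow_const _ (fun _ _ => Or.inr hp.le)
    apply ContinuousOn.norm
    apply ContinuousOn.mul q.continuous.continuousOn
    exact (d.g_diff (fun _ => 1) (fun _ => by norm_num)).continuousOn
  -- value at the origin
  have h1 : ‖q.eval 0 - 1‖ ^ p ≤ ε / d.mass p 0 := by
    have a1 := submean_analytic (fun z => q.eval z * d.g (fun _ => 1) z - 1) p (rad 0) 1 hp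
      (rad_pos 0) (rad_lt_one 0) hdiff
    simp only [d.g_zero, mul_one] at a1
    have a2 := hcon 1
    rw [Finset.sum_range_one] at a2
    rw [le_div_iff₀ hm0]
    nlinarith
  -- bound for the weighted mean of q f
  have h2 : ∀ J, ∑ j ∈ Finset.range J, d.mass p j *
        Real.circleAverage (fun z => ‖q.eval z * d.g (fun _ => 1) z‖ ^ p) 0 (rad j)
        ≤ 3 ^ p * (ε + 5 * Real.exp (-(p * (6 + 5 / p)))) := by
    intro J
    have a1 : ∀ j, Real.circleAverage (fun z => ‖q.eval z * d.g (fun _ => 1) z‖ ^ p) 0 (rad j)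
        ≤ 3 ^ p * (Real.circleAverage
          (fun z => ‖q.eval z * d.g (fun _ => 1) z - 1‖ ^ p) 0 (rad j) + 1) := by
      intro j
      have hi1 := circ_int hc1 j
      have hi3 : CircleIntegrable (fun z => ‖q.eval z * d.g (fun _ => 1) z - 1‖ ^ p + 1)
        0 (rad j) := hi1.add (circleIntegrable_const _ _ _)
      have e0 : Real.circleAverage (fun z => ‖q.eval z * d.g (fun _ => 1) z - 1‖ ^ p + 1) 0 (rad j)
          = Real.circleAverage (fun z => ‖q.eval z * d.g (fun _ => 1) z - 1‖ ^ p) 0 (rad j) + 1 := by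
        rw [Real.circleAverage_fun_add hi1 (circleIntegrable_const _ _ _),
          Real.circleAverage_const]
      rw [← e0, ← smul_eq_mul, ← Real.circleAverage_fun_smul]
      apply Real.circleAverage_mono (circ_int hc2 j)
      · exact hi3.const_smul
      · intro z _
        have b1 := add3_rpow_le hp (norm_nonneg (q.eval z * d.g (fun _ => 1) z - 1)) zero_le_one
          le_rfl
        rw [Real.one_rpow, Real.zero_rpow hp.ne', add_zero, add_zero] at b1
        refine le_trans ?_ b1
        apply Real.rpow_le_rpow (norm_nonneg _) _ hp.le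
        calc ‖q.eval z * d.g (fun _ => 1) z‖ = ‖(q.eval z * d.g (fun _ => 1) z - 1) + 1‖ := by
              rw [sub_add_cancel]
          _ ≤ _ := norm_add_le _ _
          _ = _ := by rw [norm_one]
    calc ∑ j ∈ Finset.range J, d.mass p j *
        Real.circleAverage (fun z => ‖q.eval z * d.g (fun _ => 1) z‖ ^ p) 0 (rad j)
        ≤ ∑ j ∈ Finset.range J, d.mass p j * (3 ^ p * (Real.circleAverage
          (fun z => ‖q.eval z * d.g (fun _ => 1) z - 1‖ ^ p) 0 (rad j) + 1)) :=
          Finset.sum_le_sum fun j _ => mul_le_mul_of_nonneg_left (a1 j) (d.mass_pos p j).le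
      _ = 3 ^ p * (∑ j ∈ Finset.range J, d.mass p j * Real.circleAverage
          (fun z => ‖q.eval z * d.g (fun _ => 1) z - 1‖ ^ p) 0 (rad j)
          + ∑ j ∈ Finset.range J, d.mass p j) := by
          rw [← Finset.sum_add_distrib, Finset.mul_sum]
          apply Finset.sum_congr rfl
          intro j _
          ring
      _ ≤ _ := by
          apply mul_le_mul_of_nonneg_left _ (by positivity)
          have := (hcon J).le
          have := d.sum_mass_le p hp J
          linarith
  have h3 := d.noncyclic p hp q _ h2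
  have h4 : (1 : ℝ) ≤ 3 ^ p * (‖q.eval 0‖ ^ p + ‖q.eval 0 - 1‖ ^ p) := by
    have b1 := add3_rpow_le hp (norm_nonneg (q.eval 0)) (norm_nonneg (q.eval 0 - 1)) le_rfl
    rw [Real.zero_rpow hp.ne', add_zero, add_zero] at b1
    refine le_trans ?_ b1
    apply Real.one_le_rpow _ hp.le
    calc (1 : ℝ) = ‖q.eval 0 - (q.eval 0 - 1)‖ := by rw [sub_sub_cancel, norm_one]
      _ ≤ _ := norm_sub_le _ _
  have h5 : (3 : ℝ) ^ p ≤ Real.exp (2 * p) := by
    rw [Real.exp_mul]
    apply Real.rpow_le_rpow (by norm_num) _ hp.le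
    have := Real.add_one_le_exp (2 : ℝ)
    linarith
  have h6 : 3 ^ p * (Real.exp (2 * p) * (3 ^ p * (5 * Real.exp (-(p * (6 + 5 / p))))))
      ≤ 5 / 6 := by
    have e1 : Real.exp (2 * p) * (Real.exp (2 * p) * (Real.exp (2 * p) *
        (5 * Real.exp (-(p * (6 + 5 / p)))))) = 5 * Real.exp (-5) := by
      have e2 : Real.exp (-(p * (6 + 5 / p)))
          = Real.exp (-(2 * p)) * Real.exp (-(2 * p)) * Real.exp (-(2 * p)) * Real.exp (-5) := by
        rw [← Real.exp_add, ← Real.exp_add, ← Real.exp_add]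
        congr 1
        field_simp
        ring
      rw [e2]
      have e3 : Real.exp (2 * p) * Real.exp (-(2 * p)) = 1 := by
        rw [← Real.exp_add]; simp
      calc _ = (Real.exp (2 * p) * Real.exp (-(2 * p))) * (Real.exp (2 * p) * Real.exp (-(2 * p)))
            * (Real.exp (2 * p) * Real.exp (-(2 * p))) * (5 * Real.exp (-5)) := by ring
        _ = _ := by rw [e3]; ring
    have e4 : Real.exp (-5) ≤ 1 / 6 := by
      rw [Real.exp_neg, ← one_div]
      apply one_div_le_one_div_of_le (by norm_num)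
      have := Real.add_one_le_exp (5 : ℝ)
      linarith
    calc 3 ^ p * (Real.exp (2 * p) * (3 ^ p * (5 * Real.exp (-(p * (6 + 5 / p))))))
        ≤ Real.exp (2 * p) * (Real.exp (2 * p) * (Real.exp (2 * p) *
        (5 * Real.exp (-(p * (6 + 5 / p)))))) := by gcongr
      _ = 5 * Real.exp (-5) := e1
      _ ≤ 5 / 6 := by linarith
  have h7 : C * ε = 1 / 12 := by rw [hε]; field_simp
  have h8 : (3 : ℝ) ^ p * (‖q.eval 0‖ ^ p + ‖q.eval 0 - 1‖ ^ p) ≤
      3 ^ p * (Real.exp (2 * p) * (3 ^ p * (5 * Real.exp (-(p * (6 + 5 / p)))))) + C * ε := by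
    have e1 : 3 ^ p * (Real.exp (2 * p) * (3 ^ p * (5 * Real.exp (-(p * (6 + 5 / p)))))) + C * ε
        = 3 ^ p * (Real.exp (2 * p) * (3 ^ p * (ε + 5 * Real.exp (-(p * (6 + 5 / p)))))
          + ε / d.mass p 0) := by
      rw [hC]; ring
    rw [e1]
    apply mul_le_mul_of_nonneg_left _ (by positivity)
    linarith
  linarith

end Sq
end Pool.Agent.T2H70.WI
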