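import Mathlib

set_option autoImplicit false

open Complex Polynomial Metric Set Real

namespace Pool.Agent.T2H70.WI

/-- majorant of one linear factor -/
lemma factor_majorant (p R : ℝ) (hp : 0 < p) (hR : 0 < R) (a : ℂ) :
    ∃ F : ℂ → ℂ, DiffContOnCl ℂ F (ball 0 R) ∧ (∀ z : ℂ, ‖z‖ = R → ‖F z‖ = ‖z - a‖ ^ p) ∧
      ∀ z : ℂ, ‖z‖ ≤ R → ‖z - a‖ ^ p ≤ ‖F z‖ := by
  have hRc : (R : ℂ) ≠ 0 := by exact_mod_cast hR.ne'
  rcases lt_or_ge ‖a‖ R with ha | ha
  · refine ⟨fun z => ((R : ℂ) - (starRingEnd ℂ) a * z / R) ^ (p : ℂ), ?_, ?_, ?_⟩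
    · have hre : ∀ z : ℂ, ‖z‖ ≤ R → 0 < ((R : ℂ) - (starRingEnd ℂ) a * z / R).re := by
        intro z hz
        have h1 : ‖(starRingEnd ℂ) a * z / R‖ < R := by
          rw [norm_div, norm_mul, RCLike.norm_conj, Complex.norm_real, Real.norm_eq_abs,
            abs_of_pos hR, div_lt_iff₀ hR]
          have := norm_nonneg a
          have := norm_nonneg z
          nlinarith
        have h2 := (abs_le.1 ((Complex.abs_re_le_norm ((starRingEnd ℂ) a * z / R)))).2
        rw [Complex.sub_re, Complex.ofReal_re]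
        linarith
      constructor
      · intro z hz
        have hz' : ‖z‖ ≤ R := by simpa using (mem_ball_zero_iff.1 hz).le
        apply DifferentiableAt.differentiableWithinAt
        apply DifferentiableAt.cpow_const (by fun_prop)
        exact Or.inl (hre z hz')
      · rw [closure_ball _ hR.ne']
        intro z hz
        have hz' : ‖z‖ ≤ R := by simpa using hz
        apply ContinuousAt.continuousWithinAt
        have h1 := Complex.continuousAt_cpow_const_of_re_pos
          (z := (R : ℂ) - (starRingEnd ℂ) a * z / R)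
          (w := (p : ℂ)) (Or.inl (hre z hz').le) (by simpa using hp)
        exact ContinuousAt.comp (f := fun z : ℂ => (R : ℂ) - (starRingEnd ℂ) a * z / R)
          (g := fun x : ℂ => x ^ (p : ℂ)) h1 (by fun_prop)
    · intro z hz
      simp only [Complex.norm_cpow_real]
      congr 1
      have h1 : (R : ℂ) - (starRingEnd ℂ) a * z / R = z * (starRingEnd ℂ) (z - a) / R := by
        have : z * (starRingEnd ℂ) z = (R : ℂ) ^ 2 := by
          rw [Complex.mul_conj, Complex.normSq_eq_norm_sq, hz]; push_cast; ring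
        rw [map_sub, mul_sub, this]
        field_simp
      rw [h1, norm_div, norm_mul, RCLike.norm_conj, Complex.norm_real, Real.norm_eq_abs,
        abs_of_pos hR, hz]
      field_simp
    · intro z hz
      simp only [Complex.norm_cpow_real]
      apply Real.rpow_le_rpow (norm_nonneg _) _ hp.le
      have h1 : (R : ℂ) - (starRingEnd ℂ) a * z / R = ((R : ℂ) ^ 2 - (starRingEnd ℂ) a * z) / R := by
        field_simp
      rw [h1, norm_div, Complex.norm_real, Real.norm_eq_abs, abs_of_pos hR, le_div_iff₀ hR]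
      apply abs_le_of_sq_le_sq' _ (norm_nonneg _) |>.2
      rw [mul_pow, ← Complex.normSq_eq_norm_sq, ← Complex.normSq_eq_norm_sq]
      have h2 : Complex.normSq ((R : ℂ) ^ 2 - (starRingEnd ℂ) a * z)
          - Complex.normSq (z - a) * R ^ 2
          = (R ^ 2 - Complex.normSq z) * (R ^ 2 - Complex.normSq a) := by
        rw [Complex.normSq_apply, Complex.normSq_apply, Complex.normSq_apply, Complex.normSq_apply]
        simp only [Complex.sub_re, Complex.sub_im, Complex.mul_re, Complex.mul_im, Complex.conj_re,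
          Complex.conj_im, pow_two, Complex.ofReal_re, Complex.ofReal_im]
        ring
      have h3 : 0 ≤ R ^ 2 - Complex.normSq z := by
        rw [Complex.normSq_eq_norm_sq]; nlinarith [norm_nonneg z]
      have h4 : 0 ≤ R ^ 2 - Complex.normSq a := by
        rw [Complex.normSq_eq_norm_sq]; nlinarith [norm_nonneg a]
      nlinarith [mul_nonneg h3 h4]
  · have ha0 : 0 < ‖a‖ := lt_of_lt_of_le hR ha
    have ha' : a ≠ 0 := norm_pos_iff.1 ha0
    have hnorm : ∀ z : ℂ, ‖(‖a‖ : ℂ) * (1 - z / a)‖ = ‖z - a‖ := by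
      intro z
      rw [norm_mul, Complex.norm_real, norm_norm]
      have : (1 : ℂ) - z / a = (a - z) / a := by field_simp
      rw [this, norm_div, norm_sub_rev]
      field_simp
    have hre : ∀ z : ℂ, ‖z‖ ≤ R → 0 ≤ ((‖a‖ : ℂ) * (1 - z / a)).re := by
      intro z hz
      rw [Complex.re_ofReal_mul]
      apply mul_nonneg (norm_nonneg _)
      have h1 : ‖z / a‖ ≤ 1 := by
        rw [norm_div, div_le_one ha0]; exact hz.trans ha
      have h2 := (abs_le.1 (Complex.abs_re_le_norm (z / a))).2
      rw [Complex.sub_re, Complex.one_re]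
      linarith
    have hre' : ∀ z : ℂ, ‖z‖ < R → 0 < ((‖a‖ : ℂ) * (1 - z / a)).re := by
      intro z hz
      rw [Complex.re_ofReal_mul]
      apply mul_pos ha0
      have h1 : ‖z / a‖ < 1 := by
        rw [norm_div, div_lt_one ha0]; exact hz.trans_le ha
      have h2 := (abs_le.1 (Complex.abs_re_le_norm (z / a))).2
      rw [Complex.sub_re, Complex.one_re]
      linarith
    refine ⟨fun z => ((‖a‖ : ℂ) * (1 - z / a)) ^ (p : ℂ), ?_, ?_, ?_⟩
    · constructor
      · intro z hz
        have hz' : ‖z‖ < R := by simpa using hz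
        apply DifferentiableAt.differentiableWithinAt
        apply DifferentiableAt.cpow_const (by fun_prop)
        exact Or.inl (hre' z hz')
      · rw [closure_ball _ hR.ne']
        intro z hz
        have hz' : ‖z‖ ≤ R := by simpa using hz
        apply ContinuousAt.continuousWithinAt
        have h1 := Complex.continuousAt_cpow_const_of_re_pos (z := (‖a‖ : ℂ) * (1 - z / a))
          (w := (p : ℂ)) (Or.inl (hre z hz')) (by simpa using hp)
        exact ContinuousAt.comp (f := fun z : ℂ => (‖a‖ : ℂ) * (1 - z / a))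
          (g := fun x : ℂ => x ^ (p : ℂ)) h1 (by fun_prop)
    · intro z hz
      simp only [Complex.norm_cpow_real]
      rw [hnorm]
    · intro z hz
      simp only [Complex.norm_cpow_real]
      rw [hnorm]

lemma multiset_majorant (p R : ℝ) (hp : 0 < p) (hR : 0 < R) (s : Multiset ℂ) :
    ∃ F : ℂ → ℂ, DiffContOnCl ℂ F (ball 0 R) ∧
      (∀ z : ℂ, ‖z‖ = R → ‖F z‖ = ‖(s.map (fun a => z - a)).prod‖ ^ p) ∧
      ∀ z : ℂ, ‖z‖ ≤ R → ‖(s.map (fun a => z - a)).prod‖ ^ p ≤ ‖F z‖ := by
  induction s using Multiset.induction_on with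
  | empty =>
    refine ⟨fun _ => 1, diffContOnCl_const, ?_, ?_⟩ <;> intro z hz <;> simp
  | cons a s ih =>
    obtain ⟨F, h1, h2, h3⟩ := ih
    obtain ⟨G, g1, g2, g3⟩ := factor_majorant p R hp hR a
    refine ⟨fun z => G z * F z, ?_, ?_, ?_⟩
    · exact g1.smul h1
    · intro z hz
      rw [Multiset.map_cons, Multiset.prod_cons, norm_mul, norm_mul,
        Real.mul_rpow (norm_nonneg _) (norm_nonneg _), g2 z hz, h2 z hz]
    · intro z hz
      rw [Multiset.map_cons, Multiset.prod_cons, norm_mul, norm_mul,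
        Real.mul_rpow (norm_nonneg _) (norm_nonneg _)]
      exact mul_le_mul (g3 z hz) (h3 z hz) (by positivity) (norm_nonneg _)

/-- `|q|^p` is dominated by the modulus of an analytic function with the same boundary values. -/
theorem exists_majorant (p R : ℝ) (hp : 0 < p) (hR : 0 < R) (q : ℂ[X]) :
    ∃ F : ℂ → ℂ, DiffContOnCl ℂ F (ball 0 R) ∧ (∀ z : ℂ, ‖z‖ = R → ‖F z‖ = ‖q.eval z‖ ^ p) ∧
      ∀ z : ℂ, ‖z‖ ≤ R → ‖q.eval z‖ ^ p ≤ ‖F z‖ := by
  obtain ⟨F, h1, h2, h3⟩ := multiset_majorant p R hp hR q.roots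
  have hq : ∀ z, q.eval z = q.leadingCoeff * (q.roots.map (fun a => z - a)).prod := by
    intro z
    conv_lhs => rw [(IsAlgClosed.splits q).eq_prod_roots]
    rw [eval_mul, eval_C, eval_multiset_prod, Multiset.map_map]
    congr 2
    apply Multiset.map_congr rfl
    intro a _
    simp
  refine ⟨fun z => ((‖q.leadingCoeff‖ ^ p : ℝ) : ℂ) * F z, ?_, ?_, ?_⟩
  · exact h1.const_smul (((‖q.leadingCoeff‖ ^ p : ℝ) : ℂ))
  · intro z hz
    rw [norm_mul, Complex.norm_real, hq, norm_mul, Real.mul_rpow (norm_nonneg _) (norm_nonneg _),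
      h2 z hz, Real.norm_eq_abs, abs_of_nonneg (by positivity)]
  · intro z hz
    rw [norm_mul, Complex.norm_real, hq, norm_mul, Real.mul_rpow (norm_nonneg _) (norm_nonneg _),
      Real.norm_eq_abs, abs_of_nonneg (by positivity)]
    have := h3 z hz
    gcongr

end Pool.Agent.T2H70.WI
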