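import Pool.Agent.T2H70.WI.Est

set_option autoImplicit false

open Complex Polynomial Metric Set Real MeasureTheory Filter Topology

namespace Pool.Agent.T2H70.WI
namespace Sq

variable {h : ℝ} (d : Sq h)

lemma circ_int {F : ℂ → ℝ} (hF : ContinuousOn F (ball 0 1)) (j : ℕ) :
    CircleIntegrable F 0 (rad j) := by
  apply ContinuousOn.circleIntegrable (rad_pos j).le
  apply hF.mono
  intro z hz
  have : ‖z‖ = rad j := by simpa using hz
  simpa [this] using rad_lt_one j

lemma int_q (q : ℂ[X]) (p : ℝ) (hp : 0 < p) :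
    Continuous (fun z : ℂ => ‖q.eval z‖ ^ p) :=
  (q.continuous.norm).rpow_const (fun _ => Or.inr hp.le)

lemma one_step (p : ℝ) (hp : 0 < p) (q : ℂ[X]) (j : ℕ) :
    Real.circleAverage (fun z => ‖q.eval z‖ ^ p) 0 (rad j) ≤
      Real.exp (-(p * (d.H j - 2))) *
        Real.circleAverage (fun z => ‖q.eval z * d.g (fun _ => 1) z‖ ^ p) 0 (rad j)
      + (3 / 4) * Real.circleAverage (fun z => ‖q.eval z‖ ^ p) 0 (rad (j + 1)) := by
  have hgc : ContinuousOn (fun z => ‖q.eval z * d.g (fun _ => 1) z‖ ^ p) (ball 0 1) := by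
    apply ContinuousOn.rpow_const _ (fun _ _ => Or.inr hp.le)
    apply ContinuousOn.norm
    apply ContinuousOn.mul q.continuous.continuousOn
    exact (d.g_diff (fun _ => 1) (fun _ => by norm_num)).continuousOn
  have hi1 := circ_int (hgc) j
  have hqc : ContinuousOn (fun z : ℂ => ‖q.eval z‖ ^ p) (ball 0 1) := (int_q q p hp).continuousOn
  have hi2 := circ_int hqc j
  have hwc : ContinuousOn (fun z : ℂ => (1 - ((z / rad j) ^ (d.N j)).re) * ‖q.eval z‖ ^ p)
      (ball 0 1) := by
    apply Continuous.continuousOn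
    apply Continuous.mul _ (int_q q p hp)
    fun_prop
  have hi3 := circ_int hwc j
  have hsw := sweep q p hp (rad_pos j) (rad_lt_succ j) (d.N j)
  have h8 := (d.rel j).2.2.2.2.2.1
  have hnn : 0 ≤ Real.circleAverage (fun z : ℂ => ‖q.eval z‖ ^ p) 0 (rad (j + 1)) := by
    apply Real.circleAverage_nonneg_of_nonneg
    intro z _
    positivity
  have key : Real.circleAverage (fun z => ‖q.eval z‖ ^ p) 0 (rad j) ≤
      Real.circleAverage (fun z => Real.exp (-(p * (d.H j - 2))) • ‖q.eval z * d.g (fun _ => 1) z‖ ^ p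
        + (2 / 3 : ℝ) • ((1 - ((z / rad j) ^ (d.N j)).re) * ‖q.eval z‖ ^ p)) 0 (rad j) := by
    apply Real.circleAverage_mono hi2
    · exact (hi1.const_smul).add (hi3.const_smul)
    · intro z hz
      have hz' : ‖z‖ = rad j := by simpa [abs_of_pos (rad_pos j)] using hz
      have hw : ‖(z / rad j) ^ (d.N j)‖ = 1 := by
        rw [norm_pow, norm_div, hz', Complex.norm_real, Real.norm_eq_abs, abs_of_pos (rad_pos j),
          div_self (rad_pos j).ne', one_pow]
      have hre := Complex.re_le_norm ((z / rad j) ^ (d.N j))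
      rw [hw] at hre
      have hq0 : (0 : ℝ) ≤ ‖q.eval z‖ ^ p := by positivity
      simp only [smul_eq_mul]
      by_cases hb : -(1 / 2) ≤ ((z / rad j) ^ (d.N j)).re
      · have e1 := d.L_lower (fun _ => 1) (by intro; norm_num) (by intro; norm_num) 0
          (by intro i k; simp) j z hz' hb
        have e2 : ‖q.eval z‖ ^ p ≤ Real.exp (-(p * (d.H j - 2))) *
            ‖q.eval z * d.g (fun _ => 1) z‖ ^ p := by
          rw [norm_mul, norm_g, Real.mul_rpow (norm_nonneg _) (Real.exp_pos _).le, ← Real.exp_mul]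
          have e3 : Real.exp (-(p * (d.H j - 2))) *
            (‖q.eval z‖ ^ p * Real.exp ((d.L (fun _ => 1) z).re * p))
            = ‖q.eval z‖ ^ p * Real.exp (((d.L (fun _ => 1) z).re - (d.H j - 2)) * p) := by
            rw [mul_left_comm, ← Real.exp_add]
            ring_nf
          rw [e3]
          have e4 : 1 ≤ Real.exp (((d.L (fun _ => 1) z).re - (d.H j - 2)) * p) := by
            rw [Real.one_le_exp_iff]
            apply mul_nonneg _ hp.le
            linarith
          nlinarith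
        have e5 : 0 ≤ (1 - ((z / rad j) ^ (d.N j)).re) * ‖q.eval z‖ ^ p :=
          mul_nonneg (by linarith) hq0
        linarith
      · push Not at hb
        have e1 : 0 ≤ Real.exp (-(p * (d.H j - 2))) * ‖q.eval z * d.g (fun _ => 1) z‖ ^ p := by
          positivity
        nlinarith
  refine key.trans ?_
  have hi1' : CircleIntegrable (fun z => Real.exp (-(p * (d.H j - 2))) •
      ‖q.eval z * d.g (fun _ => 1) z‖ ^ p) 0 (rad j) := hi1.const_smul
  have hi3' : CircleIntegrable (fun z : ℂ => (2 / 3 : ℝ) •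
      ((1 - ((z / rad j) ^ (d.N j)).re) * ‖q.eval z‖ ^ p)) 0 (rad j) := hi3.const_smul
  rw [Real.circleAverage_fun_add hi1' hi3', Real.circleAverage_fun_smul,
    Real.circleAverage_fun_smul, smul_eq_mul, smul_eq_mul]
  have e9 : 2 / 3 * Real.circleAverage (fun z : ℂ => (1 - ((z / rad j) ^ (d.N j)).re) * ‖q.eval z‖ ^ p)
      0 (rad j) ≤ (3 / 4) * Real.circleAverage (fun z => ‖q.eval z‖ ^ p) 0 (rad (j + 1)) := by
    have : (1 + (rad j / rad (j + 1)) ^ (d.N j)) *
        Real.circleAverage (fun z : ℂ => ‖q.eval z‖ ^ p) 0 (rad (j + 1))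
        ≤ (1 + 1 / 8) * Real.circleAverage (fun z : ℂ => ‖q.eval z‖ ^ p) 0 (rad (j + 1)) := by
      apply mul_le_mul_of_nonneg_right _ hnn
      linarith
    linarith
  linarith

theorem iterate (p : ℝ) (hp : 0 < p) (q : ℂ[X]) (J : ℕ) :
    Real.circleAverage (fun z => ‖q.eval z‖ ^ p) 0 (rad 0) ≤
      Real.exp (2 * p) * ∑ j ∈ Finset.range J, d.mass p j *
        Real.circleAverage (fun z => ‖q.eval z * d.g (fun _ => 1) z‖ ^ p) 0 (rad j)
      + (3 / 4) ^ J * Real.circleAverage (fun z => ‖q.eval z‖ ^ p) 0 (rad J) := by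
  induction J with
  | zero => simp
  | succ J ih =>
    refine ih.trans ?_
    rw [Finset.sum_range_succ, mul_add]
    have h1 := d.one_step p hp q J
    have hnn : 0 ≤ Real.circleAverage
        (fun z : ℂ => ‖q.eval z * d.g (fun _ => 1) z‖ ^ p) 0 (rad J) := by
      apply Real.circleAverage_nonneg_of_nonneg
      intro z _
      positivity
    have h2 : (3 / 4 : ℝ) ^ J * (Real.exp (-(p * (d.H J - 2))) *
        Real.circleAverage (fun z => ‖q.eval z * d.g (fun _ => 1) z‖ ^ p) 0 (rad J))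
        ≤ Real.exp (2 * p) * (d.mass p J *
        Real.circleAverage (fun z => ‖q.eval z * d.g (fun _ => 1) z‖ ^ p) 0 (rad J)) := by
      rw [← mul_assoc, ← mul_assoc]
      apply mul_le_mul_of_nonneg_right _ hnn
      unfold mass
      have e1 : Real.exp (-(p * (d.H J - 2))) = Real.exp (2 * p) * Real.exp (-(p * d.H J)) := by
        rw [← Real.exp_add]; ring_nf
      rw [e1]
      have e2 : (3 / 4 : ℝ) ^ J ≤ (4 / 5) ^ J := pow_le_pow_left₀ (by norm_num) (by norm_num) J
      have e3 : 0 ≤ Real.exp (2 * p) * Real.exp (-(p * d.H J)) := by positivity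
      nlinarith
    have h3 : (3 / 4 : ℝ) ^ (J + 1) * Real.circleAverage (fun z : ℂ => ‖q.eval z‖ ^ p) 0 (rad (J + 1))
        = (3 / 4 : ℝ) ^ J * ((3 / 4) *
          Real.circleAverage (fun z : ℂ => ‖q.eval z‖ ^ p) 0 (rad (J + 1))) := by
      rw [pow_succ]; ring
    rw [h3]
    have h4 : (0 : ℝ) < (3 / 4) ^ J := by positivity
    nlinarith

/-- the full product is not cyclic: lower bound -/
theorem noncyclic (p : ℝ) (hp : 0 < p) (q : ℂ[X]) (M : ℝ)
    (hM : ∀ J, ∑ j ∈ Finset.range J, d.mass p j *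
        Real.circleAverage (fun z => ‖q.eval z * d.g (fun _ => 1) z‖ ^ p) 0 (rad j) ≤ M) :
    ‖q.eval 0‖ ^ p ≤ Real.exp (2 * p) * M := by
  refine (submean q p hp (rad_pos 0)).trans ?_
  obtain ⟨B, hB0, hB⟩ := poly_bound q
  have h1 : ∀ J, Real.circleAverage (fun z => ‖q.eval z‖ ^ p) 0 (rad J) ≤ B ^ p := by
    intro J
    apply Real.circleAverage_mono_on_of_le_circle
    · exact circ_int (int_q q p hp).continuousOn J
    · intro z hz
      have hz' : ‖z‖ = rad J := by simpa [abs_of_pos (rad_pos J)] using hz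
      apply Real.rpow_le_rpow (norm_nonneg _) _ hp.le
      exact hB z (by rw [hz']; exact (rad_lt_one J).le)
  have h2 : ∀ J, Real.circleAverage (fun z => ‖q.eval z‖ ^ p) 0 (rad 0)
      ≤ Real.exp (2 * p) * M + (3 / 4) ^ J * B ^ p := by
    intro J
    refine (d.iterate p hp q J).trans ?_
    have := hM J
    have := h1 J
    gcongr
  have h3 : Tendsto (fun J : ℕ => Real.exp (2 * p) * M + (3 / 4 : ℝ) ^ J * B ^ p) atTop
      (𝓝 (Real.exp (2 * p) * M + 0 * B ^ p)) := by
    apply Tendsto.const_add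
    apply Tendsto.mul_const
    exact tendsto_pow_atTop_nhds_zero_of_lt_one (by norm_num) (by norm_num)
  rw [zero_mul, add_zero] at h3
  exact ge_of_tendsto' h3 h2

end Sq
end Pool.Agent.T2H70.WI
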