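import Mathlib

set_option autoImplicit false

open Finset Complex

namespace Pool.Agent.T2H70.WI

/-- the flat top trigonometric polynomial `1 - F` with `F` a Fejer kernel centred at `-1` -/
noncomputable def chi (n : ℕ) (w : ℂ) : ℝ := 1 - ‖∑ l ∈ range n, (-w) ^ l‖ ^ 2 / n

lemma chi_le_one (n : ℕ) (w : ℂ) : chi n w ≤ 1 := by
  unfold chi
  have : 0 ≤ ‖∑ l ∈ range n, (-w) ^ l‖ ^ 2 / n := by positivity
  linarith

lemma chi_ge (n : ℕ) (w : ℂ) (hw : ‖w‖ = 1) (hre : -(1/2) ≤ w.re) : 1 - 4 / n ≤ chi n w := by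
  unfold chi
  have h1 : (∑ l ∈ range n, (-w) ^ l) * (1 + w) = 1 - (-w) ^ n := by
    have := geom_sum_mul_neg (-w) n
    simpa [sub_neg_eq_add] using this
  have h2 : ‖(1 : ℂ) - (-w) ^ n‖ ≤ 2 := by
    calc ‖(1 : ℂ) - (-w) ^ n‖ ≤ ‖(1:ℂ)‖ + ‖(-w) ^ n‖ := norm_sub_le _ _
      _ = 2 := by rw [norm_pow, norm_neg, hw]; norm_num
  have h3 : 1 ≤ ‖1 + w‖ ^ 2 := by
    rw [← Complex.normSq_eq_norm_sq, Complex.normSq_add]
    have : Complex.normSq w = 1 := by rw [Complex.normSq_eq_norm_sq, hw]; norm_num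
    rw [this]
    simp
    linarith
  have h4 : ‖∑ l ∈ range n, (-w) ^ l‖ ^ 2 ≤ 4 := by
    have h5 : ‖∑ l ∈ range n, (-w) ^ l‖ ^ 2 * ‖1 + w‖ ^ 2 ≤ 4 := by
      rw [← mul_pow, ← norm_mul, h1]
      have := norm_nonneg ((1 : ℂ) - (-w) ^ n)
      nlinarith
    have h6 : 0 ≤ ‖∑ l ∈ range n, (-w) ^ l‖ ^ 2 := by positivity
    nlinarith
  have h5 : ‖∑ l ∈ range n, (-w) ^ l‖ ^ 2 / n ≤ 4 / n := by
    gcongr
  linarith

/-- expansion of `chi` -/
lemma chi_expand (n : ℕ) (hn : 0 < n) (w : ℂ) (hw : ‖w‖ = 1) :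
    chi n w = -(2 / n) * ∑ l ∈ range n, ∑ e ∈ range l, ((-w) ^ (e + 1)).re := by
  have key : ∀ m : ℕ, ‖∑ l ∈ range m, (-w) ^ l‖ ^ 2
      = m + 2 * ∑ l ∈ range m, ∑ e ∈ range l, ((-w) ^ (e + 1)).re := by
    intro m
    induction m with
    | zero => simp
    | succ m ih =>
      rw [sum_range_succ, ← Complex.normSq_eq_norm_sq, Complex.normSq_add,
        Complex.normSq_eq_norm_sq, ih, sum_range_succ (n := m)]
      have e1 : Complex.normSq ((-w) ^ m) = 1 := by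
        rw [Complex.normSq_eq_norm_sq, norm_pow, norm_neg, hw]; norm_num
      rw [e1]
      have e2 : (∑ l ∈ range m, (-w) ^ l * (starRingEnd ℂ) ((-w) ^ m)).re
          = ∑ e ∈ range m, ((-w) ^ (e + 1)).re := by
        rw [Complex.re_sum]
        rw [← sum_range_reflect (fun e => ((-w) ^ (e + 1)).re)]
        apply sum_congr rfl
        intro l hl
        have hl' := mem_range.1 hl
        have e3 : m = l + (m - 1 - l + 1) := by omega
        have e4 : (-w) ^ l * (starRingEnd ℂ) ((-w) ^ m)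
            = (starRingEnd ℂ) ((-w) ^ (m - 1 - l + 1)) := by
          conv_lhs => rw [e3]
          rw [pow_add, map_mul, ← mul_assoc, Complex.mul_conj]
          rw [Complex.normSq_eq_norm_sq, norm_pow, norm_neg, hw]
          simp
        rw [e4, Complex.conj_re]
      have e5 : ((∑ l ∈ range m, (-w) ^ l) * (starRingEnd ℂ) ((-w) ^ m)).re
          = ∑ e ∈ range m, ((-w) ^ (e + 1)).re := by
        rw [sum_mul, e2]
      rw [e5]
      push_cast
      ring
  unfold chi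
  rw [key n]
  have : (n : ℝ) ≠ 0 := by positivity
  field_simp
  ring

end Pool.Agent.T2H70.WI
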