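import Pool.Agent.T2H70.WI.OneStep

set_option autoImplicit false

open Finset Complex Polynomial

namespace Pool.Agent.T2H70.WI

/-- one monomial pair -/
noncomputable def pairP (G : ℂ[X]) (n N : ℕ) (R : ℝ) (e k : ℕ) : ℂ[X] :=
  C (-(1 / n) * (-1) ^ (e + 1) * G.coeff k * ((R : ℂ)⁻¹) ^ (N * (e + 1))) * X ^ (k + N * (e + 1)) +
  C (-(1 / n) * (-1) ^ (e + 1) * (starRingEnd ℂ) (G.coeff k) * (R : ℂ) ^ (2 * k) *
    ((R : ℂ)⁻¹) ^ (N * (e + 1))) * X ^ (N * (e + 1) - k)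

noncomputable def stepQ (G : ℂ[X]) (n N : ℕ) (R : ℝ) : ℂ[X] :=
  ∑ l ∈ range n, ∑ e ∈ range l, ∑ k ∈ range (G.natDegree + 1), pairP G n N R e k

lemma pairP_norm (G : ℂ[X]) (n N : ℕ) (hn : 0 < n) (r R : ℝ) (hr : 0 ≤ r) (hrR : r < R) (e k : ℕ)
    (hk : k ≤ G.natDegree) (hN : G.natDegree ≤ N) (z : ℂ) (hz : ‖z‖ ≤ r) :
    ‖(pairP G n N R e k).eval z‖ ≤ (2 / n) * (‖G.coeff k‖ * R ^ k) * (r / R) ^ (N - G.natDegree) := by
  have hR : 0 < R := lt_of_le_of_lt hr hrR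
  have hq0 : 0 ≤ r / R := by positivity
  have hq1 : r / R ≤ 1 := by rw [div_le_one hR]; exact hrR.le
  unfold pairP
  rw [eval_add, eval_mul, eval_mul, eval_C, eval_C, eval_pow, eval_pow, eval_X]
  have hneg : ∀ m : ℕ, ‖(-1 : ℂ) ^ m‖ = 1 := fun m => by rw [norm_pow, norm_neg, norm_one, one_pow]
  have hN1 : N ≤ N * (e + 1) := Nat.le_mul_of_pos_right _ (by omega)
  have b1 : ‖-(1 / (n:ℂ)) * (-1) ^ (e + 1) * G.coeff k * ((R : ℂ)⁻¹) ^ (N * (e + 1)) *
      z ^ (k + N * (e + 1))‖ ≤ (1 / n) * (‖G.coeff k‖ * R ^ k) * (r / R) ^ (N - G.natDegree) := by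
    simp only [norm_mul, norm_neg, norm_div, norm_one, norm_natCast, norm_pow, norm_inv,
      Complex.norm_real, Real.norm_eq_abs, abs_of_pos hR, one_pow, mul_one]
    rw [pow_add]
    have e1 : ‖z‖ ^ k ≤ R ^ k := pow_le_pow_left₀ (norm_nonneg _) (hz.trans hrR.le) _
    have e2 : (R⁻¹) ^ (N * (e + 1)) * ‖z‖ ^ (N * (e + 1)) ≤ (r / R) ^ (N - G.natDegree) := by
      rw [← mul_pow]
      calc (R⁻¹ * ‖z‖) ^ (N * (e + 1)) ≤ (r / R) ^ (N * (e + 1)) := by
            apply pow_le_pow_left₀ (by positivity)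
            rw [inv_mul_eq_div]; gcongr
        _ ≤ (r / R) ^ (N - G.natDegree) := pow_le_pow_of_le_one hq0 hq1 (by omega)
    calc 1 / (n:ℝ) * ‖G.coeff k‖ * (R⁻¹) ^ (N * (e + 1)) * (‖z‖ ^ k * ‖z‖ ^ (N * (e + 1)))
        = 1 / (n:ℝ) * (‖G.coeff k‖ * ‖z‖ ^ k) * ((R⁻¹) ^ (N * (e + 1)) * ‖z‖ ^ (N * (e + 1))) := by
          ring
      _ ≤ 1 / (n:ℝ) * (‖G.coeff k‖ * R ^ k) * (r / R) ^ (N - G.natDegree) := by
          gcongr
  have b2 : ‖-(1 / (n:ℂ)) * (-1) ^ (e + 1) * (starRingEnd ℂ) (G.coeff k) * (R : ℂ) ^ (2 * k) *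
      ((R : ℂ)⁻¹) ^ (N * (e + 1)) * z ^ (N * (e + 1) - k)‖
      ≤ (1 / n) * (‖G.coeff k‖ * R ^ k) * (r / R) ^ (N - G.natDegree) := by
    simp only [norm_mul, norm_neg, norm_div, norm_one, norm_natCast, norm_pow, norm_inv,
      Complex.norm_real, Real.norm_eq_abs, abs_of_pos hR, one_pow, mul_one, RCLike.norm_conj]
    have hsplit : N * (e + 1) = (N * (e + 1) - k) + k := by omega
    have e3 : R ^ (2 * k) * (R⁻¹) ^ (N * (e + 1)) * ‖z‖ ^ (N * (e + 1) - k)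
        ≤ R ^ k * (r / R) ^ (N - G.natDegree) := by
      have e4 : R ^ (2 * k) * (R⁻¹) ^ (N * (e + 1))
          = R ^ k * (R⁻¹) ^ (N * (e + 1) - k) := by
        conv_lhs => rw [hsplit, pow_add]
        have : R ^ (2 * k) * (R⁻¹) ^ k = R ^ k := by
          rw [two_mul, pow_add, mul_assoc, ← mul_pow, mul_inv_cancel₀ hR.ne', one_pow, mul_one]
        calc R ^ (2 * k) * ((R⁻¹) ^ (N * (e + 1) - k) * (R⁻¹) ^ k)
            = (R ^ (2 * k) * (R⁻¹) ^ k) * (R⁻¹) ^ (N * (e + 1) - k) := by ring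
          _ = _ := by rw [this]
      rw [e4, mul_assoc, ← mul_pow]
      have e5 : (R⁻¹ * ‖z‖) ^ (N * (e + 1) - k) ≤ (r / R) ^ (N - G.natDegree) := by
        calc (R⁻¹ * ‖z‖) ^ (N * (e + 1) - k) ≤ (r / R) ^ (N * (e + 1) - k) := by
              apply pow_le_pow_left₀ (by positivity)
              rw [inv_mul_eq_div]; gcongr
          _ ≤ (r / R) ^ (N - G.natDegree) := pow_le_pow_of_le_one hq0 hq1 (by omega)
      gcongr
    calc 1 / (n:ℝ) * ‖G.coeff k‖ * R ^ (2 * k) * (R⁻¹) ^ (N * (e + 1)) * ‖z‖ ^ (N * (e + 1) - k)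
        = 1 / (n:ℝ) * ‖G.coeff k‖ * (R ^ (2 * k) * (R⁻¹) ^ (N * (e + 1)) * ‖z‖ ^ (N * (e + 1) - k)) := by
          ring
      _ ≤ 1 / (n:ℝ) * ‖G.coeff k‖ * (R ^ k * (r / R) ^ (N - G.natDegree)) := by gcongr
      _ = _ := by ring
  calc _ ≤ _ := norm_add_le _ _
    _ ≤ _ := add_le_add b1 b2
    _ = _ := by ring

lemma pairP_circle (G : ℂ[X]) (n N : ℕ) (R : ℝ) (hR : 0 < R) (e k : ℕ)
    (hk : k ≤ N) (z : ℂ) (hz : ‖z‖ = R) :
    (pairP G n N R e k).eval z
      = -(1 / n) * (-((z / R) ^ N)) ^ (e + 1) * (2 * ((G.coeff k * z ^ k).re : ℂ)) := by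
  have hRc : (R : ℂ) ≠ 0 := by exact_mod_cast hR.ne'
  have hz0 : z ≠ 0 := by rw [← norm_pos_iff, hz]; exact hR
  have hN1 : N ≤ N * (e + 1) := Nat.le_mul_of_pos_right _ (by omega)
  unfold pairP
  rw [eval_add, eval_mul, eval_mul, eval_C, eval_C, eval_pow, eval_pow, eval_X]
  have hzz : z * (starRingEnd ℂ) z = (R : ℂ) ^ 2 := by
    rw [Complex.mul_conj, Complex.normSq_eq_norm_sq, hz]; push_cast; ring
  have hsplit : N * (e + 1) = (N * (e + 1) - k) + k := by omega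
  have h2 : (2 * ((G.coeff k * z ^ k).re : ℂ)) = G.coeff k * z ^ k
      + (starRingEnd ℂ) (G.coeff k) * (starRingEnd ℂ) z ^ k := by
    rw [← map_pow, ← map_mul, Complex.add_conj]
    push_cast
    ring
  rw [h2]
  have h3 : (-((z / R) ^ N)) ^ (e + 1) = (-1) ^ (e + 1) * (((R : ℂ)⁻¹) ^ (N * (e + 1)) * z ^ (N * (e + 1))) := by
    rw [neg_pow, ← pow_mul, div_pow, div_eq_mul_inv, inv_pow]
    ring
  rw [h3]
  have h4 : (R : ℂ) ^ (2 * k) * z ^ (N * (e + 1) - k) = z ^ (N * (e + 1)) * (starRingEnd ℂ) z ^ k := by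
    conv_rhs => rw [hsplit, pow_add]
    rw [mul_assoc, ← mul_pow, hzz, ← pow_mul]
    ring
  rw [pow_add]
  linear_combination (-(1 / (n:ℂ)) * (-1) ^ (e + 1) * (starRingEnd ℂ) (G.coeff k) *
    ((R : ℂ)⁻¹) ^ (N * (e + 1))) * h4

theorem onestep (S : ℂ[X]) (n : ℕ) (hn : 0 < n) (r R H ε : ℝ) (hr : 0 ≤ r) (hrR : r < R)
    (hε : 0 < ε) :
    ∃ N0 : ℕ, ∀ N, N0 ≤ N → ∃ Q : ℂ[X], Q.eval 0 = 0 ∧ (∀ z : ℂ, ‖z‖ ≤ r → ‖Q.eval z‖ ≤ ε) ∧
      ∀ z : ℂ, ‖z‖ = R → (Q.eval z).re = (H - (S.eval z).re) * chi n ((z / R) ^ N) := by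
  have hR : 0 < R := lt_of_le_of_lt hr hrR
  set G : ℂ[X] := C (H : ℂ) - S with hG
  set d := G.natDegree with hd
  set C0 : ℝ := ∑ k ∈ range (d + 1), ‖G.coeff k‖ * R ^ k with hC0
  have hC0n : 0 ≤ C0 := by
    rw [hC0]; exact sum_nonneg fun k _ => by positivity
  have hq0 : 0 ≤ r / R := by positivity
  have hq1 : r / R < 1 := by rw [div_lt_one hR]; exact hrR
  have htend : Filter.Tendsto (fun m : ℕ => (2 * n * C0) * (r / R) ^ m) Filter.atTop (nhds 0) := by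
    have := (tendsto_pow_atTop_nhds_zero_of_lt_one hq0 hq1).const_mul (2 * n * C0)
    simpa using this
  obtain ⟨M, hM⟩ := (htend.eventually (gt_mem_nhds hε)).exists_forall_of_atTop
  refine ⟨M + d + 1, fun N hN => ⟨stepQ G n N R, ?_, ?_, ?_⟩⟩
  · unfold stepQ
    rw [eval_finsetSum]
    apply sum_eq_zero
    intro l _
    rw [eval_finsetSum]
    apply sum_eq_zero
    intro e _
    rw [eval_finsetSum]
    apply sum_eq_zero
    intro k hk
    have hk' : k ≤ d := by have := mem_range.1 hk; omega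
    have hN1 : N ≤ N * (e + 1) := Nat.le_mul_of_pos_right _ (by omega)
    unfold pairP
    rw [eval_add, eval_mul, eval_mul, eval_C, eval_C, eval_pow, eval_pow, eval_X]
    rw [zero_pow (by omega), zero_pow (by omega)]
    ring
  · intro z hz
    unfold stepQ
    rw [eval_finsetSum]
    have step : ∀ l ∈ range n, ‖(∑ e ∈ range l, ∑ k ∈ range (d + 1), pairP G n N R e k).eval z‖
        ≤ 2 * C0 * (r / R) ^ (N - d) := by
      intro l hl
      have hl' := mem_range.1 hl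
      rw [eval_finsetSum]
      have s2 : ∀ e ∈ range l, ‖(∑ k ∈ range (d + 1), pairP G n N R e k).eval z‖
          ≤ (2 / n) * C0 * (r / R) ^ (N - d) := by
        intro e _
        rw [eval_finsetSum]
        calc _ ≤ ∑ k ∈ range (d + 1), ‖(pairP G n N R e k).eval z‖ := norm_sum_le _ _
          _ ≤ ∑ k ∈ range (d + 1), (2 / n) * (‖G.coeff k‖ * R ^ k) * (r / R) ^ (N - d) := by
              apply sum_le_sum
              intro k hk
              exact pairP_norm G n N hn r R hr hrR e k (by have := mem_range.1 hk; omega)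
                (by omega) z hz
          _ = _ := by rw [← sum_mul, ← mul_sum]
      calc _ ≤ ∑ e ∈ range l, ‖(∑ k ∈ range (d + 1), pairP G n N R e k).eval z‖ := norm_sum_le _ _
        _ ≤ ∑ e ∈ range l, (2 / n) * C0 * (r / R) ^ (N - d) := sum_le_sum s2
        _ = l * ((2 / n) * C0 * (r / R) ^ (N - d)) := by rw [sum_const, card_range, nsmul_eq_mul]
        _ ≤ n * ((2 / n) * C0 * (r / R) ^ (N - d)) := by
            gcongr
        _ = 2 * C0 * (r / R) ^ (N - d) := by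
            have : (n : ℝ) ≠ 0 := by positivity
            field_simp
    calc _ ≤ ∑ l ∈ range n, ‖(∑ e ∈ range l, ∑ k ∈ range (d + 1), pairP G n N R e k).eval z‖ :=
          norm_sum_le _ _
      _ ≤ ∑ l ∈ range n, 2 * C0 * (r / R) ^ (N - d) := sum_le_sum step
      _ = (2 * n * C0) * (r / R) ^ (N - d) := by
          rw [sum_const, card_range, nsmul_eq_mul]; ring
      _ ≤ ε := (hM (N - d) (by omega)).le
  · intro z hz
    have hw : ‖(z / (R:ℂ)) ^ N‖ = 1 := by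
      rw [norm_pow, norm_div, hz, Complex.norm_real, Real.norm_eq_abs, abs_of_pos hR,
        div_self hR.ne', one_pow]
    have hGz : (G.eval z).re = H - (S.eval z).re := by
      rw [hG]; simp
    have hsum : ∀ e, ∑ k ∈ range (d + 1), (pairP G n N R e k).eval z
        = -(1 / n) * (-((z / R) ^ N)) ^ (e + 1) * (2 * ((G.eval z).re : ℂ)) := by
      intro e
      rw [eval_eq_sum_range (p := G) z, Complex.re_sum]
      push_cast
      rw [mul_sum, mul_sum]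
      apply sum_congr rfl
      intro k hk
      exact pairP_circle G n N R hR e k (by have := mem_range.1 hk; omega) z hz
    have hev : (stepQ G n N R).eval z = ∑ l ∈ range n, ∑ e ∈ range l,
        (-(1 / (n:ℂ)) * (-((z / R) ^ N)) ^ (e + 1) * (2 * ((G.eval z).re : ℂ))) := by
      unfold stepQ
      rw [eval_finsetSum]
      apply sum_congr rfl
      intro l _
      rw [eval_finsetSum]
      apply sum_congr rfl
      intro e _
      rw [eval_finsetSum]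
      exact hsum e
    rw [hev, ← hGz, chi_expand n hn _ hw]
    simp only [Complex.re_sum]
    rw [mul_sum, mul_sum]
    apply sum_congr rfl
    intro l _
    rw [mul_sum, mul_sum]
    apply sum_congr rfl
    intro e _
    have : (-(1 / (n:ℂ)) * (-((z / R) ^ N)) ^ (e + 1) * (2 * ((G.eval z).re : ℂ)))
        = ((-(1 / (n:ℝ)) * (2 * (G.eval z).re) : ℝ) : ℂ) * (-((z / R) ^ N)) ^ (e + 1) := by
      push_cast; ring
    rw [this, Complex.re_ofReal_mul]
    ring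

end Pool.Agent.T2H70.WI
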